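import Mathlib
import Pool.Agent.Q256.CI.Frm

set_option autoImplicit false

/-!
The number of forms with given restriction to a line.
-/

namespace Pool.Agent.Q256.LN

open Finset
open Pool.Agent.Q256.CI

/-- the restriction of the form `F` to the line through `u` and `v`, as a polynomial in one
variable: `F(u X + v)`. -/
noncomputable def res {N : ℕ} (u v : Fin N → ℤ) (F : MvPolynomial (Fin N) ℤ) : Polynomial ℤ :=
  MvPolynomial.aeval (fun k => Polynomial.C (u k) * Polynomial.X + Polynomial.C (v k)) F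

theorem res_eval {N : ℕ} (u v : Fin N → ℤ) (F : MvPolynomial (Fin N) ℤ) (s : ℤ) :
    (res u v F).eval s = MvPolynomial.eval (fun k => s * u k + v k) F := by
  unfold res
  induction F using MvPolynomial.induction_on with
  | C a => simp
  | add p q hp hq => simp only [map_add, Polynomial.eval_add, hp, hq]
  | mul_X p k hp =>
    simp only [map_mul, Polynomial.eval_mul, hp, MvPolynomial.aeval_X, MvPolynomial.eval_X]
    simp [mul_comm]

theorem res_add {N : ℕ} (u v : Fin N → ℤ) (F G : MvPolynomial (Fin N) ℤ) :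
    res u v (F + G) = res u v F + res u v G := by
  unfold res
  rw [map_add]

/-- a polynomial whose coefficients have weighted size at most `A`. -/
def WBd (U V : ℕ) (m : ℕ) (A : ℝ) (p : Polynomial ℤ) : Prop :=
  (∀ i, i ≤ m → |(p.coeff i : ℝ)| ≤ A * (U : ℝ) ^ i * (V : ℝ) ^ (m - i)) ∧ ∀ i, m < i → p.coeff i = 0

theorem WBd.mul_lin {U V m : ℕ} {A : ℝ} {p : Polynomial ℤ} (hA : 0 ≤ A) (h : WBd U V m A p) (a b : ℤ)
    (ha : |a| ≤ U) (hb : |b| ≤ V) :
    WBd U V (m + 1) (2 * A) (p * (Polynomial.C a * Polynomial.X + Polynomial.C b)) := by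
  have har : |(a : ℝ)| ≤ U := by exact_mod_cast ha
  have hbr : |(b : ℝ)| ≤ V := by exact_mod_cast hb
  have hU0 : (0 : ℝ) ≤ U := Nat.cast_nonneg _
  have hV0 : (0 : ℝ) ≤ V := Nat.cast_nonneg _
  have hco : ∀ i, (p * (Polynomial.C a * Polynomial.X + Polynomial.C b)).coeff i =
      (if i = 0 then 0 else p.coeff (i - 1) * a) + p.coeff i * b := by
    intro i
    rw [mul_add, Polynomial.coeff_add, Polynomial.coeff_mul_C]
    congr 1
    rw [← mul_assoc]
    rcases i with _ | i
    · simp
    · rw [Polynomial.coeff_mul_X, Polynomial.coeff_mul_C]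
      simp
  constructor
  · intro i hi
    rw [hco]
    push_cast
    have h1 : |(((if i = 0 then 0 else p.coeff (i - 1) * a : ℤ)) : ℝ)| ≤
        A * (U : ℝ) ^ i * (V : ℝ) ^ (m + 1 - i) := by
      split_ifs with h0
      · simp only [Int.cast_zero, abs_zero]; positivity
      · push_cast
        rw [abs_mul]
        have h2 := h.1 (i - 1) (by omega)
        calc |(p.coeff (i - 1) : ℝ)| * |(a : ℝ)|
            ≤ (A * (U : ℝ) ^ (i - 1) * (V : ℝ) ^ (m - (i - 1))) * U :=
              mul_le_mul h2 har (abs_nonneg _) (by positivity)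
          _ = A * ((U : ℝ) ^ (i - 1) * U) * (V : ℝ) ^ (m - (i - 1)) := by ring
          _ = _ := by
              rw [← pow_succ, show i - 1 + 1 = i by omega, show m - (i - 1) = m + 1 - i by omega]
    have h2 : |(p.coeff i : ℝ) * b| ≤ A * (U : ℝ) ^ i * (V : ℝ) ^ (m + 1 - i) := by
      rcases Nat.lt_or_ge m i with h0 | h0
      · rw [h.2 i h0]
        simp only [Int.cast_zero, zero_mul, abs_zero]
        positivity
      · rw [abs_mul]
        calc |(p.coeff i : ℝ)| * |(b : ℝ)|
            ≤ (A * (U : ℝ) ^ i * (V : ℝ) ^ (m - i)) * V :=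
              mul_le_mul (h.1 i h0) hbr (abs_nonneg _) (by positivity)
          _ = A * (U : ℝ) ^ i * ((V : ℝ) ^ (m - i) * V) := by ring
          _ = _ := by
              rw [← pow_succ, show m - i + 1 = m + 1 - i by omega]
    have h3 := (abs_add_le ((((if i = 0 then 0 else p.coeff (i - 1) * a : ℤ)) : ℝ))
      ((p.coeff i : ℝ) * b)).trans (add_le_add h1 h2)
    have h4 : ((((if i = 0 then 0 else p.coeff (i - 1) * a : ℤ)) : ℝ)) =
        (if i = 0 then (0 : ℝ) else (p.coeff (i - 1) : ℝ) * a) := by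
      split_ifs <;> simp
    rw [h4] at h3
    linarith
  · intro i hi
    rw [hco, if_neg (by omega), h.2 i (by omega), h.2 (i - 1) (by omega)]
    ring

theorem wbd_sum {U V m : ℕ} {ι : Type*} (S : Finset ι) (A : ℝ) (p : ι → Polynomial ℤ)
    (h : ∀ i ∈ S, WBd U V m A (p i)) : WBd U V m (#S * A) (∑ i ∈ S, p i) := by
  constructor
  · intro i hi
    rw [Polynomial.finsetSum_coeff]
    push_cast
    refine (abs_sum_le_sum_abs _ _).trans ((sum_le_sum (fun j hj => (h j hj).1 i hi)).trans ?_)
    rw [sum_const, nsmul_eq_mul]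
    exact le_of_eq (by ring)
  · intro i hi
    rw [Polynomial.finsetSum_coeff]
    exact sum_eq_zero (fun j hj => (h j hj).2 i hi)

theorem wbd_C_mul {U V m : ℕ} {A : ℝ} {p : Polynomial ℤ} (h : WBd U V m A p) (c : ℤ) (B : ℝ)
    (hc : |(c : ℝ)| ≤ B) : WBd U V m (B * A) (Polynomial.C c * p) := by
  constructor
  · intro i hi
    rw [Polynomial.coeff_C_mul]
    push_cast
    rw [abs_mul]
    calc |(c : ℝ)| * |(p.coeff i : ℝ)| ≤ B * (A * (U : ℝ) ^ i * (V : ℝ) ^ (m - i)) :=
          mul_le_mul hc (h.1 i hi) (abs_nonneg _) ((abs_nonneg _).trans hc)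
      _ = _ := by ring
  · intro i hi
    rw [Polynomial.coeff_C_mul, h.2 i hi, mul_zero]

/-- products of linear polynomials. -/
theorem wbd_monomial {N : ℕ} {U V : ℕ} (u v : Fin N → ℤ) (hu : ∀ k, |u k| ≤ U)
    (hv : ∀ k, |v k| ≤ V) (l : List (Fin N)) :
    WBd U V l.length (2 ^ l.length)
      (l.map (fun k => Polynomial.C (u k) * Polynomial.X + Polynomial.C (v k))).prod := by
  induction l with
  | nil =>
    constructor
    · intro i hi
      simp only [List.length_nil, Nat.le_zero] at hi
      subst hi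
      simp
    · intro i hi
      simp only [List.length_nil] at hi
      simp only [List.map_nil, List.prod_nil]
      rw [Polynomial.coeff_one, if_neg (by omega)]
  | cons k l ih =>
    have := ih.mul_lin (by positivity) (u k) (v k) (hu k) (hv k)
    rw [List.map_cons, List.prod_cons, mul_comm, List.length_cons, pow_succ, mul_comm ((2 : ℝ) ^ _)]
    exact this

/-- the coefficients of the restriction. -/
theorem res_wbd {n d B : ℕ} (u v : Fin (n + 1) → ℤ) (F : MvPolynomial (Fin (n + 1)) ℤ)
    (hF : F ∈ Box n d B) :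
    WBd (qq u) (qq v) d (((n + d).choose n : ℝ) * (B * 2 ^ d)) (res u v F) := by
  classical
  have h1 : res u v F = ∑ α ∈ F.support, Polynomial.C (F.coeff α) *
      ∏ k, (Polynomial.C (u k) * Polynomial.X + Polynomial.C (v k)) ^ (α k) := by
    unfold res
    rw [MvPolynomial.aeval_def, MvPolynomial.eval₂_eq']
    rfl
  have h2 : ∀ α ∈ F.support, WBd (qq u) (qq v) d (B * 2 ^ d) (Polynomial.C (F.coeff α) *
      ∏ k, (Polynomial.C (u k) * Polynomial.X + Polynomial.C (v k)) ^ (α k)) := by
    intro α hα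
    have hdeg : ∑ k, α k = d := by
      have := hF.1 (MvPolynomial.mem_support_iff.1 hα)
      rw [← this, Finsupp.weight_apply, Finsupp.sum_fintype]
      · simp
      · simp
    let l : List (Fin (n + 1)) := (Finsupp.toMultiset α).toList
    have hl1 : l.length = d := by
      rw [Multiset.length_toList, Finsupp.card_toMultiset, Finsupp.sum_fintype _ _ (fun _ => rfl)]
      exact hdeg
    have hl2 : (l.map (fun k => Polynomial.C (u k) * Polynomial.X + Polynomial.C (v k))).prod =
        ∏ k, (Polynomial.C (u k) * Polynomial.X + Polynomial.C (v k)) ^ (α k) := by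
      rw [← Multiset.prod_coe, ← Multiset.map_coe, Multiset.coe_toList, Finsupp.toMultiset_apply]
      rw [Finsupp.sum_fintype _ _ (fun _ => by simp)]
      have e1 := map_sum (Multiset.mapAddMonoidHom (fun k : Fin (n + 1) =>
        Polynomial.C (u k) * Polynomial.X + Polynomial.C (v k))) (fun k => α k • {k}) univ
      simp only [Multiset.coe_mapAddMonoidHom] at e1
      rw [e1, Multiset.prod_sum]
      refine prod_congr rfl (fun k _ => ?_)
      rw [Multiset.map_nsmul, Multiset.prod_nsmul, Multiset.map_singleton, Multiset.prod_singleton]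
    have h3 := wbd_monomial (U := qq u) (V := qq v) u v (le_qq u) (le_qq v) l
    rw [hl1, hl2] at h3
    refine wbd_C_mul h3 _ _ ?_
    have := hF.2 α
    exact_mod_cast this
  rw [h1]
  have h3 := wbd_sum F.support (B * 2 ^ d : ℝ) _ h2
  have h4 : #F.support ≤ (n + d).choose n := by
    rw [← card_anti n d]
    refine card_le_card (fun α hα => ?_)
    rw [mem_anti]
    have := hF.1 (MvPolynomial.mem_support_iff.1 hα)
    rw [← this, Finsupp.weight_apply, Finsupp.sum_fintype]
    · simp [Finsupp.degree_eq_sum]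
    · simp
  refine ⟨fun i hi => (h3.1 i hi).trans ?_, h3.2⟩
  have h5 : (#F.support : ℝ) ≤ ((n + d).choose n : ℝ) := by exact_mod_cast h4
  have h6 : (0 : ℝ) ≤ (B * 2 ^ d) * ((qq u : ℕ) : ℝ) ^ i * ((qq v : ℕ) : ℝ) ^ (d - i) := by positivity
  calc (#F.support : ℝ) * (B * 2 ^ d) * ((qq u : ℕ) : ℝ) ^ i * ((qq v : ℕ) : ℝ) ^ (d - i)
      = (#F.support : ℝ) * ((B * 2 ^ d) * ((qq u : ℕ) : ℝ) ^ i * ((qq v : ℕ) : ℝ) ^ (d - i)) := by ring
    _ ≤ ((n + d).choose n : ℝ) * ((B * 2 ^ d) * ((qq u : ℕ) : ℝ) ^ i * ((qq v : ℕ) : ℝ) ^ (d - i)) :=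
        mul_le_mul_of_nonneg_right h5 h6
    _ = _ := by ring

end Pool.Agent.Q256.LN
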