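import Mathlib
import Pool.Agent.Q256.LN.Cnt

set_option autoImplicit false

namespace Pool.Agent.Q256.LN

open Finset
open Pool.Agent.Q256.CI

/-- forms in the box with given restriction to the line through `u` and `v`. -/
def VanL {n : ℕ} (d B : ℕ) (u v : Fin (n + 2) → ℤ) (f : Polynomial ℤ) :
    Set (MvPolynomial (Fin (n + 2)) ℤ) :=
  {F | F ∈ Box (n + 1) d B ∧ res u v F = f}

theorem finite_vanL {n : ℕ} (d B : ℕ) (u v : Fin (n + 2) → ℤ) (f : Polynomial ℤ) :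
    (VanL d B u v f).Finite := (finite_box (n + 1) d B).subset (fun _ h => h.1)

theorem countL {n : ℕ} {L : Fin n → Fin (n + 2) → ℤ} {u v : Fin (n + 2) → ℤ}
    (h : Reduced L u v) (hind : LinearIndependent ℚ (fun j => (fun k => (L j k : ℚ)))) (T : ℕ)
    (hT : 1 ≤ T) (hL : ∀ j k, |L j k| ≤ T) (d H : ℕ) (hHT : H ≤ T) (f : Polynomial ℤ) :
    Nat.card (VanL d H u v f) * ∏ i : Fin (d + 1), (T * qq u ^ (i : ℕ) * qq v ^ (d - i)) ≤
      (2 * ((2 * ((n + 2) * (n + 6)) ^ d + 1) * T) + 1) ^ (n + 1 + d).choose (n + 1) := by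
  classical
  let J := (i : Fin (d + 1)) → Fin (T * qq u ^ (i : ℕ) * qq v ^ (d - i))
  let cf : J → ℕ → ℤ := fun p i => if hi : i < d + 1 then ((p ⟨i, hi⟩ : ℕ) : ℤ) else 0
  have hcf : ∀ p : J, ∀ i, i ≤ d → |(cf p i : ℝ)| ≤
      (T : ℝ) * ((qq u : ℕ) : ℝ) ^ i * ((qq v : ℕ) : ℝ) ^ (d - i) := by
    intro p i hi
    have h1 : cf p i = ((p ⟨i, by omega⟩ : ℕ) : ℤ) := dif_pos (by omega : i < d + 1)
    rw [h1]
    have h2 : ((p ⟨i, by omega⟩ : ℕ)) < T * qq u ^ i * qq v ^ (d - i) := (p ⟨i, by omega⟩).2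
    rw [Int.cast_natCast, abs_of_nonneg (Nat.cast_nonneg _)]
    exact_mod_cast h2.le
  have hrep := fun p : J => form2 h hind T hL d (T : ℝ) (Nat.cast_nonneg _) (cf p) (hcf p)
  choose w hw1 hw2 hw3 using hrep
  rw [← card_box]
  have hcard : Nat.card (VanL d H u v f) *
      ∏ i : Fin (d + 1), (T * qq u ^ (i : ℕ) * qq v ^ (d - i)) =
      Nat.card (VanL d H u v f × J) := by
    rw [Nat.card_prod, Nat.card_pi]
    simp only [Nat.card_fin]
  rw [hcard]
  have hmem : ∀ p : VanL d H u v f × J,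
      p.1.1 + w p.2 ∈ Box (n + 1) d ((2 * ((n + 2) * (n + 6)) ^ d + 1) * T) := by
    rintro ⟨⟨F, hF⟩, m⟩
    refine ⟨hF.1.1.add (hw1 _), fun α => ?_⟩
    rw [MvPolynomial.coeff_add]
    have h1 : |((F.coeff α : ℤ) : ℝ)| ≤ T := by
      have h2 : |F.coeff α| ≤ (T : ℤ) := (hF.1.2 α).trans (by exact_mod_cast hHT)
      exact_mod_cast h2
    have h2 := hw3 m α
    have h6 : |((F.coeff α + (w m).coeff α : ℤ) : ℝ)| ≤
        (((2 * ((n + 2) * (n + 6)) ^ d + 1) * T : ℕ) : ℝ) := by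
      push_cast
      refine (abs_add_le _ _).trans ?_
      refine (add_le_add h1 h2).trans (le_of_eq ?_)
      ring
    exact_mod_cast h6
  have : Finite (Box (n + 1) d ((2 * ((n + 2) * (n + 6)) ^ d + 1) * T)) :=
    (finite_box _ _ _).to_subtype
  refine Nat.card_le_card_of_injective (fun p => (⟨_, hmem p⟩ :
    Box (n + 1) d ((2 * ((n + 2) * (n + 6)) ^ d + 1) * T))) ?_
  rintro ⟨⟨F, hF⟩, m⟩ ⟨⟨G, hG⟩, m'⟩ heq
  have h1 : F + w m = G + w m' := congrArg Subtype.val heq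
  have hpol : ∀ p : J, ∀ s : ℤ, (∑ i ∈ range (d + 1), Polynomial.C (cf p i) *
      Polynomial.X ^ i : Polynomial ℤ).eval s = (res u v (w p)).eval s := by
    intro p s
    rw [res_eval]
    have := hw2 p s 1
    simp only [one_mul, one_pow, mul_one] at this
    rw [this, Polynomial.eval_finsetSum]
    refine sum_congr rfl (fun i _ => ?_)
    simp
  have h2 : res u v (w m) = res u v (w m') := by
    have := congrArg (res u v) h1
    rw [res_add, res_add, hF.2, hG.2] at this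
    exact add_left_cancel this
  have h3 : (∑ i ∈ range (d + 1), Polynomial.C (cf m i) * Polynomial.X ^ i : Polynomial ℤ) =
      ∑ i ∈ range (d + 1), Polynomial.C (cf m' i) * Polynomial.X ^ i := by
    refine Polynomial.funext (fun s => ?_)
    rw [hpol, hpol, h2]
  have h4 : m = m' := by
    funext i
    apply Fin.ext
    have h5 := congrArg (fun p => p.coeff (i : ℕ)) h3
    simp only [Polynomial.finsetSum_coeff, Polynomial.coeff_C_mul, Polynomial.coeff_X_pow, mul_ite,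
      mul_one, mul_zero, sum_ite_eq, mem_range] at h5
    rw [if_pos i.2, if_pos i.2] at h5
    have e1 : cf m i = ((m i : ℕ) : ℤ) := dif_pos i.2
    have e2 : cf m' i = ((m' i : ℕ) : ℤ) := dif_pos i.2
    rw [e1, e2] at h5
    exact_mod_cast h5
  subst h4
  have h5 : F = G := add_right_cancel h1
  subst h5
  rfl

/-- the constant -/
noncomputable def KL (n d : ℕ) : ℝ :=
  (2 * (2 * ((n + 2) * (n + 6)) ^ d + 1) + 1 : ℝ) ^ (n + 1 + d).choose (n + 1)

theorem KL_nonneg (n d : ℕ) : 0 ≤ KL n d := by unfold KL; positivity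

theorem prod_weights (U V : ℝ) (T : ℝ) (d : ℕ) :
    ∏ i : Fin (d + 1), (T * U ^ (i : ℕ) * V ^ (d - i)) =
      T ^ (d + 1) * (U * V) ^ (d * (d + 1) / 2) := by
  have h1 : ∏ i : Fin (d + 1), (T * U ^ (i : ℕ) * V ^ (d - i)) =
      T ^ (d + 1) * ((∏ i : Fin (d + 1), U ^ (i : ℕ)) * ∏ i : Fin (d + 1), V ^ (d - (i : ℕ))) := by
    rw [prod_mul_distrib, prod_mul_distrib, prod_const, card_univ, Fintype.card_fin]
    ring
  have h2 : ∏ i : Fin (d + 1), U ^ (i : ℕ) = U ^ (d * (d + 1) / 2) := by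
    rw [Fin.prod_univ_eq_prod_range (fun i => U ^ i) (d + 1), prod_pow_eq_pow_sum,
      Finset.sum_range_id]
    congr 1
    rw [Nat.add_sub_cancel, mul_comm]
  have h3 : ∏ i : Fin (d + 1), V ^ (d - (i : ℕ)) = V ^ (d * (d + 1) / 2) := by
    rw [Fin.prod_univ_eq_prod_range (fun i => V ^ (d - i)) (d + 1),
      ← Finset.prod_range_reflect]
    have : ∀ j ∈ range (d + 1), V ^ (d - (d + 1 - 1 - j)) = V ^ j := by
      intro j hj
      rw [mem_range] at hj
      congr 1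
      omega
    rw [prod_congr rfl this, prod_pow_eq_pow_sum, Finset.sum_range_id]
    congr 1
    rw [Nat.add_sub_cancel, mul_comm]
  rw [h1, h2, h3, mul_pow]

theorem countL_real {n : ℕ} {L : Fin n → Fin (n + 2) → ℤ} {u v : Fin (n + 2) → ℤ}
    (h : Reduced L u v) (hind : LinearIndependent ℚ (fun j => (fun k => (L j k : ℚ)))) (T : ℕ)
    (hT : 1 ≤ T) (hL : ∀ j k, |L j k| ≤ T) (d H : ℕ) (hHT : H ≤ T) (f : Polynomial ℤ) :
    (Nat.card (VanL d H u v f) : ℝ) * (((qq u : ℕ) : ℝ) * ((qq v : ℕ) : ℝ)) ^ (d * (d + 1) / 2) *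
      (T : ℝ) ^ (d + 1) ≤ KL n d * (T : ℝ) ^ ((n + 1 + d).choose (n + 1)) := by
  have h1 := countL h hind T hT hL d H hHT f
  have hTr : (1 : ℝ) ≤ T := by exact_mod_cast hT
  have h2 : ((Nat.card (VanL d H u v f) *
      ∏ i : Fin (d + 1), (T * qq u ^ (i : ℕ) * qq v ^ (d - i)) : ℕ) : ℝ) ≤
      (((2 * ((2 * ((n + 2) * (n + 6)) ^ d + 1) * T) + 1) ^ (n + 1 + d).choose (n + 1) : ℕ) : ℝ) := by
    exact_mod_cast h1
  push_cast at h2
  rw [prod_weights] at h2
  have h3 : (2 * ((2 * (((n : ℝ) + 2) * (n + 6)) ^ d + 1) * T) + 1) ^ (n + 1 + d).choose (n + 1) ≤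
      KL n d * (T : ℝ) ^ ((n + 1 + d).choose (n + 1)) := by
    unfold KL
    rw [← mul_pow]
    refine pow_le_pow_left₀ (by positivity) ?_ _
    nlinarith
  calc _ = (Nat.card (VanL d H u v f) : ℝ) * ((T : ℝ) ^ (d + 1) *
        (((qq u : ℕ) : ℝ) * ((qq v : ℕ) : ℝ)) ^ (d * (d + 1) / 2)) := by ring
    _ ≤ _ := h2
    _ ≤ _ := h3

end Pool.Agent.Q256.LN
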