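import Mathlib
import Pool.Agent.Q256.LN.Lin

set_option autoImplicit false

namespace Pool.Agent.Q256.LN

open Finset

/-- the polynomial with scaled variable. -/
noncomputable def scl (r : ℝ) (p : Polynomial ℤ) : Polynomial ℂ :=
  (p.map (Int.castRingHom ℂ)).comp (Polynomial.C (r : ℂ) * Polynomial.X)

theorem scl_coeff (r : ℝ) (p : Polynomial ℤ) (i : ℕ) :
    (scl r p).coeff i = ((p.coeff i : ℤ) : ℂ) * (r : ℂ) ^ i := by
  unfold scl
  rw [Polynomial.comp_C_mul_X_coeff]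
  simp

theorem scl_norm (r : ℝ) (hr : 0 ≤ r) (p : Polynomial ℤ) (i : ℕ) :
    ‖(scl r p).coeff i‖ = |(p.coeff i : ℝ)| * r ^ i := by
  rw [scl_coeff, norm_mul, norm_pow, Complex.norm_real, Real.norm_of_nonneg hr,
    Complex.norm_intCast]

theorem scl_mul (r : ℝ) (p q : Polynomial ℤ) : scl r (p * q) = scl r p * scl r q := by
  unfold scl
  rw [Polynomial.map_mul, Polynomial.mul_comp]

theorem scl_natDegree_le (r : ℝ) (p : Polynomial ℤ) : (scl r p).natDegree ≤ p.natDegree := by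
  rw [Polynomial.natDegree_le_iff_coeff_eq_zero]
  intro i hi
  rw [scl_coeff, Polynomial.coeff_eq_zero_of_natDegree_lt hi]
  simp

theorem coeff_le_mahler (r : ℝ) (hr : 0 ≤ r) (p : Polynomial ℤ) (D : ℕ) (hD : p.natDegree ≤ D)
    (i : ℕ) : |(p.coeff i : ℝ)| * r ^ i ≤ 2 ^ D * (scl r p).mahlerMeasure := by
  rw [← scl_norm r hr]
  refine (Polynomial.norm_coeff_le_choose_mul_mahlerMeasure i (scl r p)).trans ?_
  refine mul_le_mul_of_nonneg_right ?_ (Polynomial.mahlerMeasure_nonneg _)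
  have h1 : ((scl r p).natDegree.choose i) ≤ 2 ^ D :=
    (Nat.choose_le_two_pow _ _).trans
      (Nat.pow_le_pow_right (by norm_num) ((scl_natDegree_le r p).trans hD))
  exact_mod_cast h1

theorem mahler_le (U V : ℕ) (hU : 1 ≤ U) (m : ℕ) (R : ℝ) (f : Polynomial ℤ)
    (hf : WBd U V m R f) :
    (scl ((V : ℝ) / U) f).mahlerMeasure ≤ (m + 1) * (R * (V : ℝ) ^ m) := by
  have hU0 : (0 : ℝ) < U := by exact_mod_cast hU
  have hV0 : (0 : ℝ) ≤ V := Nat.cast_nonneg _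
  have hr : (0 : ℝ) ≤ (V : ℝ) / U := by positivity
  refine (Polynomial.mahlerMeasure_le_sum_norm_coeff _).trans ?_
  have hdeg : (scl ((V : ℝ) / U) f).natDegree < m + 1 := by
    rw [Nat.lt_succ_iff, Polynomial.natDegree_le_iff_coeff_eq_zero]
    intro i hi
    rw [scl_coeff, hf.2 i hi]
    simp
  rw [Polynomial.sum_over_range' _ (fun _ => norm_zero) (m + 1) hdeg]
  have h1 : ∀ i ∈ range (m + 1), ‖(scl ((V : ℝ) / U) f).coeff i‖ ≤ R * (V : ℝ) ^ m := by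
    intro i hi
    rw [mem_range, Nat.lt_succ_iff] at hi
    rw [scl_norm _ hr]
    have h2 := hf.1 i hi
    have h3 : R * (V : ℝ) ^ m = (R * (U : ℝ) ^ i * (V : ℝ) ^ (m - i)) * ((V : ℝ) / U) ^ i := by
      rw [div_pow]
      have h4 : (V : ℝ) ^ m = (V : ℝ) ^ (m - i) * (V : ℝ) ^ i := by
        rw [← pow_add, Nat.sub_add_cancel hi]
      rw [h4]
      field_simp
    rw [h3]
    exact mul_le_mul_of_nonneg_right h2 (by positivity)
  refine (sum_le_sum h1).trans ?_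
  rw [sum_const, card_range, nsmul_eq_mul]
  push_cast
  exact le_refl _

/-- **Gelfond's inequality** with weights. -/
theorem gelfond (U V : ℕ) (hU : 1 ≤ U) (hV : 1 ≤ V) (D e : ℕ) (R : ℝ) (g q : Polynomial ℤ)
    (hg : g.natDegree ≤ D) (hq : q.natDegree ≤ e) (hf : WBd U V (D + e) R (g * q))
    (i j : ℕ) (hi : i ≤ D) (hj : j ≤ e) :
    |(g.coeff i : ℝ)| * |(q.coeff j : ℝ)| ≤ (2 ^ (D + e) * ((D + e : ℕ) + 1) * R) *
      (((U : ℝ) ^ i * (V : ℝ) ^ (D - i)) * ((U : ℝ) ^ j * (V : ℝ) ^ (e - j))) := by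
  have hU0 : (0 : ℝ) < U := by exact_mod_cast hU
  have hV0 : (0 : ℝ) < V := by exact_mod_cast hV
  have hr : (0 : ℝ) < (V : ℝ) / U := by positivity
  have h1 := coeff_le_mahler ((V : ℝ) / U) hr.le g D hg i
  have h2 := coeff_le_mahler ((V : ℝ) / U) hr.le q e hq j
  have h3 := mahler_le U V hU (D + e) R (g * q) hf
  rw [scl_mul, Polynomial.mahlerMeasure_mul] at h3
  set Mg := (scl ((V : ℝ) / U) g).mahlerMeasure with hMg
  set Mq := (scl ((V : ℝ) / U) q).mahlerMeasure with hMq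
  have hMg0 : 0 ≤ Mg := Polynomial.mahlerMeasure_nonneg _
  have hMq0 : 0 ≤ Mq := Polynomial.mahlerMeasure_nonneg _
  have h4 : (|(g.coeff i : ℝ)| * ((V : ℝ) / U) ^ i) * (|(q.coeff j : ℝ)| * ((V : ℝ) / U) ^ j) ≤
      2 ^ (D + e) * ((((D + e : ℕ) : ℝ) + 1) * (R * (V : ℝ) ^ (D + e))) := by
    calc _ ≤ (2 ^ D * Mg) * (2 ^ e * Mq) := mul_le_mul h1 h2 (by positivity) (by positivity)
      _ = 2 ^ (D + e) * (Mg * Mq) := by rw [pow_add]; ring
      _ ≤ _ := mul_le_mul_of_nonneg_left h3 (by positivity)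
  have h5 : (U : ℝ) ^ i * (V : ℝ) ^ (D - i) * ((U : ℝ) ^ j * (V : ℝ) ^ (e - j)) *
      (((V : ℝ) / U) ^ i * ((V : ℝ) / U) ^ j) = (V : ℝ) ^ (D + e) := by
    rw [div_pow, div_pow]
    have e1 : (V : ℝ) ^ (D + e) = (V : ℝ) ^ (D - i) * (V : ℝ) ^ i * ((V : ℝ) ^ (e - j) * (V : ℝ) ^ j) := by
      rw [← pow_add, ← pow_add, ← pow_add, Nat.sub_add_cancel hi, Nat.sub_add_cancel hj]
    rw [e1]
    field_simp
  have hpos : (0 : ℝ) < ((V : ℝ) / U) ^ i * ((V : ℝ) / U) ^ j := by positivity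
  rw [← h5] at h4
  refine le_of_mul_le_mul_right ?_ hpos
  calc |(g.coeff i : ℝ)| * |(q.coeff j : ℝ)| * (((V : ℝ) / U) ^ i * ((V : ℝ) / U) ^ j)
      = (|(g.coeff i : ℝ)| * ((V : ℝ) / U) ^ i) * (|(q.coeff j : ℝ)| * ((V : ℝ) / U) ^ j) := by ring
    _ ≤ _ := h4
    _ = _ := by push_cast; ring

end Pool.Agent.Q256.LN
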