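import Mathlib
import Pool.Agent.Q256.LN.Gel

set_option autoImplicit false

/-!
The number of products of two integral polynomials with given weighted size.
-/

namespace Pool.Agent.Q256.LN

open Finset

/-- the sum of the `max (|z|, 1) ^ (-b)`. -/
theorem sum_max (b : ℝ) (hb : 1 < b) : ∃ C : ℝ, 0 < C ∧ ∀ S : Finset ℤ,
    ∑ z ∈ S, (max |(z : ℝ)| 1) ^ (-b) ≤ C := by
  classical
  have hs := Real.summable_abs_int_rpow hb
  refine ⟨∑' n : ℤ, |(n : ℝ)| ^ (-b) + 1, by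
    have : 0 ≤ ∑' n : ℤ, |(n : ℝ)| ^ (-b) := tsum_nonneg (fun n => by positivity)
    linarith, fun S => ?_⟩
  have h1 : ∀ z ∈ S, (max |(z : ℝ)| 1) ^ (-b) ≤ |(z : ℝ)| ^ (-b) + if z = 0 then 1 else 0 := by
    intro z _
    split_ifs with h0
    · subst h0
      simp only [Int.cast_zero, abs_zero]
      rw [max_eq_right zero_le_one, Real.one_rpow]
      have : (0 : ℝ) ≤ (0 : ℝ) ^ (-b) := by positivity
      linarith
    · have h2 : (1 : ℝ) ≤ |(z : ℝ)| := by exact_mod_cast Int.one_le_abs h0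
      rw [max_eq_left h2]
      linarith
  refine (sum_le_sum h1).trans ?_
  rw [sum_add_distrib]
  refine add_le_add (hs.sum_le_tsum _ (fun n _ => by positivity)) ?_
  rw [Finset.sum_ite_eq']
  split_ifs <;> norm_num

/-- the weighted size of a polynomial of degree at most `D`. -/
noncomputable def gam (U V : ℕ) (D : ℕ) (g : Polynomial ℤ) : ℝ :=
  ∑ i : Fin (D + 1), |(g.coeff i : ℝ)| / ((U : ℝ) ^ (i : ℕ) * (V : ℝ) ^ (D - i))

theorem le_gam (U V : ℕ) (D : ℕ) (g : Polynomial ℤ) (i : Fin (D + 1)) :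
    |(g.coeff i : ℝ)| / ((U : ℝ) ^ (i : ℕ) * (V : ℝ) ^ (D - i)) ≤ gam U V D g :=
  single_le_sum (f := fun i : Fin (D + 1) =>
    |(g.coeff i : ℝ)| / ((U : ℝ) ^ (i : ℕ) * (V : ℝ) ^ (D - i))) (fun _ _ => by positivity)
    (mem_univ i)

theorem gam_lower (U V : ℕ) (D : ℕ) (g : Polynomial ℤ) (hg : g.coeff D ≠ 0) :
    ((U : ℝ) ^ D)⁻¹ ≤ gam U V D g := by
  have h1 := le_gam U V D g (Fin.last D)
  simp only [Fin.val_last, Nat.sub_self, pow_zero, mul_one] at h1
  refine le_trans ?_ h1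
  rw [inv_eq_one_div]
  refine div_le_div_of_nonneg_right ?_ (by positivity)
  exact_mod_cast Int.one_le_abs hg

/-- one factor. -/
theorem factor_bd (A B z b δ : ℝ) (hA : 0 < A) (hB : 0 < B) (hAB : 1 ≤ A * B) (hδ : 0 < δ)
    (hb : 1 + δ ≤ b) :
    (max (z / A) B) ^ (-b) ≤ A ^ (1 + δ) * B ^ (-(b - 1 - δ)) * (max z 1) ^ (-(1 + δ)) := by
  have h1 : max (z / A) B = max z (A * B) / A := by
    rw [← max_div_div_right hA.le, mul_comm A B, mul_div_assoc, div_self hA.ne', mul_one]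
  have hAB0 : 0 < A * B := by positivity
  have hm : 0 < max z (A * B) := lt_max_of_lt_right hAB0
  have h2 : max z 1 ≤ max z (A * B) := max_le_max le_rfl hAB
  have hm1 : 0 < max z 1 := lt_max_of_lt_right one_pos
  rw [h1, Real.div_rpow hm.le hA.le]
  have h3 : (max z (A * B)) ^ (-b) ≤ (max z 1) ^ (-(1 + δ)) * (A * B) ^ (-(b - 1 - δ)) := by
    have e1 : -b = -(1 + δ) + -(b - 1 - δ) := by ring
    rw [e1, Real.rpow_add hm]
    refine mul_le_mul ?_ ?_ (by positivity) (by positivity)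
    · exact Real.rpow_le_rpow_of_nonpos hm1 h2 (by linarith)
    · exact Real.rpow_le_rpow_of_nonpos hAB0 (le_max_right _ _) (by linarith)
  have h4 : (A : ℝ) ^ (-b) > 0 := by positivity
  rw [div_le_iff₀ h4]
  refine h3.trans (le_of_eq ?_)
  rw [Real.mul_rpow hA.le hB.le]
  have e2 : A ^ (1 + δ) * A ^ (-b) = A ^ (-(b - 1 - δ)) := by
    rw [← Real.rpow_add hA]
    congr 1
    ring
  calc (max z 1) ^ (-(1 + δ)) * (A ^ (-(b - 1 - δ)) * B ^ (-(b - 1 - δ)))
      = (max z 1) ^ (-(1 + δ)) * ((A ^ (1 + δ) * A ^ (-b)) * B ^ (-(b - 1 - δ))) := by rw [e2]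
    _ = _ := by ring

/-- the sum over the first factor. -/
theorem sum_gam (D e : ℕ) (hDe : D ≤ e) (η : ℝ) (hη : 0 < η) :
    ∃ C : ℝ, 0 < C ∧ ∀ (U V : ℕ) (𝒢 : Finset (Polynomial ℤ)), 1 ≤ U → U ≤ V →
      (∀ g ∈ 𝒢, g.natDegree = D ∧ g ≠ 0) →
      ∑ g ∈ 𝒢, (gam U V D g) ^ (-((e : ℝ) + 1 + η)) ≤
        C * (((U : ℝ) * V) ^ (D * (D + 1) / 2) * (U : ℝ) ^ (D * (e - D)) *
          ((U : ℝ) * V) ^ (D * η)) := by
  classical
  set δ : ℝ := η / (D + 1) with hδ
  have hD0 : (0 : ℝ) ≤ D := Nat.cast_nonneg D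
  have hDep : (D : ℝ) ≤ e := by exact_mod_cast hDe
  have hδ0 : 0 < δ := by positivity
  have hδη : (D + 1) * δ = η := by rw [hδ]; field_simp
  obtain ⟨C, hC, hsum⟩ := sum_max (1 + δ) (by linarith)
  refine ⟨C ^ (D + 1), by positivity, fun U V 𝒢 hU hUV h𝒢 => ?_⟩
  have hUr : (1 : ℝ) ≤ U := by exact_mod_cast hU
  have hU0 : (0 : ℝ) < U := by linarith
  have hUVr : (U : ℝ) ≤ V := by exact_mod_cast hUV
  have hV0 : (0 : ℝ) < V := by linarith
  have hVr : (1 : ℝ) ≤ V := by linarith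
  set b : ℝ := ((e : ℝ) + 1 + η) / (D + 1) with hb
  have hb1 : 1 + δ ≤ b := by
    rw [hb, le_div_iff₀ (by positivity)]
    nlinarith
  set A : Fin (D + 1) → ℝ := fun i => (U : ℝ) ^ (i : ℕ) * (V : ℝ) ^ (D - i) with hA
  set B : ℝ := ((U : ℝ) ^ D)⁻¹ with hB
  have hA0 : ∀ i, 0 < A i := fun i => by
    change 0 < (U : ℝ) ^ (i : ℕ) * (V : ℝ) ^ (D - i)
    positivity
  have hB0 : 0 < B := by positivity
  have hAB : ∀ i, 1 ≤ A i * B := by
    intro i
    rw [hB, ← div_eq_mul_inv, one_le_div (by positivity)]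
    change (U : ℝ) ^ D ≤ (U : ℝ) ^ (i : ℕ) * (V : ℝ) ^ (D - i)
    have hi : (i : ℕ) ≤ D := Nat.lt_succ_iff.1 i.2
    calc (U : ℝ) ^ D = (U : ℝ) ^ (i : ℕ) * (U : ℝ) ^ (D - i) := by
          rw [← pow_add, Nat.add_sub_cancel' hi]
      _ ≤ _ := mul_le_mul_of_nonneg_left (pow_le_pow_left₀ hU0.le hUVr _) (by positivity)
  -- the product bound
  let φ : Fin (D + 1) → ℤ → ℝ := fun i z =>
    (A i) ^ (1 + δ) * B ^ (-(b - 1 - δ)) * (max |(z : ℝ)| 1) ^ (-(1 + δ))
  have hφ0 : ∀ i z, 0 ≤ φ i z := fun i z => by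
    have := hA0 i
    change 0 ≤ (A i) ^ (1 + δ) * B ^ (-(b - 1 - δ)) * (max |(z : ℝ)| 1) ^ (-(1 + δ))
    positivity
  have hpt : ∀ g ∈ 𝒢, (gam U V D g) ^ (-((e : ℝ) + 1 + η)) ≤
      ∏ i : Fin (D + 1), φ i (g.coeff i) := by
    intro g hg
    obtain ⟨hdeg, hg0⟩ := h𝒢 g hg
    have hlead : g.coeff D ≠ 0 := by
      rw [← hdeg]
      exact Polynomial.leadingCoeff_ne_zero.2 hg0
    have hγ : 0 < gam U V D g := hB0.trans_le (gam_lower U V D g hlead)
    have e1 : (gam U V D g) ^ (-((e : ℝ) + 1 + η)) =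
        ∏ _i : Fin (D + 1), (gam U V D g) ^ (-b) := by
      rw [prod_const, card_univ, Fintype.card_fin, ← Real.rpow_natCast, ← Real.rpow_mul hγ.le]
      congr 1
      rw [hb]
      push_cast
      field_simp
    rw [e1]
    refine prod_le_prod (fun _ _ => by positivity) (fun i _ => ?_)
    refine le_trans ?_ (factor_bd (A i) B |((g.coeff i : ℤ) : ℝ)| b δ (hA0 i) hB0 (hAB i) hδ0 hb1)
    refine Real.rpow_le_rpow_of_nonpos (lt_max_of_lt_right hB0) ?_ (by linarith)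
    exact max_le (le_gam U V D g i) (gam_lower U V D g hlead)
  -- the coefficient vectors
  let cv : Polynomial ℤ → (Fin (D + 1) → ℤ) := fun g i => g.coeff i
  have hinj : Set.InjOn cv (𝒢 : Set (Polynomial ℤ)) := by
    intro g hg g' hg' h
    refine Polynomial.ext (fun i => ?_)
    rcases Nat.lt_or_ge i (D + 1) with hi | hi
    · exact congrFun h ⟨i, hi⟩
    · rw [Polynomial.coeff_eq_zero_of_natDegree_lt (by rw [(h𝒢 g hg).1]; omega),
        Polynomial.coeff_eq_zero_of_natDegree_lt (by rw [(h𝒢 g' hg').1]; omega)]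
  let t : Fin (D + 1) → Finset ℤ := fun i => 𝒢.image (fun g => g.coeff i)
  have hsub : 𝒢.image cv ⊆ Fintype.piFinset t := by
    intro c hc
    obtain ⟨g, hg, rfl⟩ := mem_image.1 hc
    rw [Fintype.mem_piFinset]
    intro i
    exact mem_image.2 ⟨g, hg, rfl⟩
  calc ∑ g ∈ 𝒢, (gam U V D g) ^ (-((e : ℝ) + 1 + η))
      ≤ ∑ g ∈ 𝒢, ∏ i : Fin (D + 1), φ i (cv g i) := sum_le_sum hpt
    _ = ∑ c ∈ 𝒢.image cv, ∏ i : Fin (D + 1), φ i (c i) := (sum_image (f := fun c : Fin (D + 1) → ℤ => ∏ i : Fin (D + 1), φ i (c i)) hinj).symm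
    _ ≤ ∑ c ∈ Fintype.piFinset t, ∏ i : Fin (D + 1), φ i (c i) :=
        sum_le_sum_of_subset_of_nonneg hsub (fun c _ _ => prod_nonneg (fun i _ => hφ0 _ _))
    _ = ∏ i : Fin (D + 1), ∑ z ∈ t i, φ i z := (prod_univ_sum t φ).symm
    _ ≤ ∏ i : Fin (D + 1), ((A i) ^ (1 + δ) * B ^ (-(b - 1 - δ)) * C) := by
        refine prod_le_prod (fun i _ => sum_nonneg (fun z _ => hφ0 _ _)) (fun i _ => ?_)
        have h1 : ∑ z ∈ t i, φ i z = (A i) ^ (1 + δ) * B ^ (-(b - 1 - δ)) *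
            ∑ z ∈ t i, (max |(z : ℝ)| 1) ^ (-(1 + δ)) := by rw [mul_sum]
        rw [h1]
        refine mul_le_mul_of_nonneg_left (hsum _) ?_
        have := hA0 i
        positivity
    _ = C ^ (D + 1) * ((∏ i : Fin (D + 1), (A i) ^ (1 + δ)) * (B ^ (-(b - 1 - δ))) ^ (D + 1)) := by
        rw [prod_mul_distrib, prod_mul_distrib, prod_const, prod_const, card_univ,
          Fintype.card_fin]
        ring
    _ ≤ _ := by
        refine mul_le_mul_of_nonneg_left ?_ (by positivity)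
        have h1 : ∏ i : Fin (D + 1), (A i) ^ (1 + δ) = (∏ i : Fin (D + 1), A i) ^ (1 + δ) := by
          rw [Real.finsetProd_rpow _ _ (fun i _ => (hA0 i).le)]
        have h2 : ∏ i : Fin (D + 1), A i = ((U : ℝ) * V) ^ (D * (D + 1) / 2) := by
          have := prod_weights (U : ℝ) V 1 D
          simpa using this
        have h3 : (B ^ (-(b - 1 - δ))) ^ (D + 1) = (U : ℝ) ^ (D * (e - D)) := by
          rw [← Real.rpow_natCast, ← Real.rpow_mul hB0.le, hB, Real.inv_rpow (by positivity),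
            ← Real.rpow_neg (by positivity), ← Real.rpow_natCast (U : ℝ) D,
            ← Real.rpow_mul hU0.le, ← Real.rpow_natCast (U : ℝ) (D * (e - D))]
          congr 1
          push_cast [Nat.cast_sub hDe]
          have : (b - 1 - δ) * ((D : ℝ) + 1) = e - D := by
            rw [hb, hδ]
            field_simp
            ring
          calc (D : ℝ) * -(-(b - 1 - δ) * ((D : ℝ) + 1)) = D * ((b - 1 - δ) * (D + 1)) := by ring
            _ = _ := by rw [this]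
        rw [h1, h2, h3]
        have hUV1 : (1 : ℝ) ≤ (U : ℝ) * V := by nlinarith
        have hUV0 : (0 : ℝ) < (U : ℝ) * V := by positivity
        have h4 : (((U : ℝ) * V) ^ (D * (D + 1) / 2)) ^ (1 + δ) ≤
            ((U : ℝ) * V) ^ (D * (D + 1) / 2) * ((U : ℝ) * V) ^ (D * η) := by
          rw [Real.rpow_add (by positivity), Real.rpow_one]
          refine mul_le_mul_of_nonneg_left ?_ (by positivity)
          rw [← Real.rpow_natCast, ← Real.rpow_mul hUV0.le]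
          refine Real.rpow_le_rpow_of_exponent_le hUV1 ?_
          have h5 : ((D * (D + 1) / 2 : ℕ) : ℝ) ≤ D * (D + 1) := by
            have : D * (D + 1) / 2 ≤ D * (D + 1) := Nat.div_le_self _ _
            exact_mod_cast this
          calc ((D * (D + 1) / 2 : ℕ) : ℝ) * δ ≤ (D * (D + 1)) * δ :=
                mul_le_mul_of_nonneg_right h5 hδ0.le
            _ = D * ((D + 1) * δ) := by ring
            _ = D * η := by rw [hδη]
        calc (((U : ℝ) * V) ^ (D * (D + 1) / 2)) ^ (1 + δ) * (U : ℝ) ^ (D * (e - D))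
            ≤ (((U : ℝ) * V) ^ (D * (D + 1) / 2) * ((U : ℝ) * V) ^ (D * η)) *
              (U : ℝ) ^ (D * (e - D)) := mul_le_mul_of_nonneg_right h4 (by positivity)
          _ = _ := by ring

end Pool.Agent.Q256.LN
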