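import Mathlib
import Pool.Agent.Q256.LN.Prs

set_option autoImplicit false

namespace Pool.Agent.Q256.LN

open Finset

/-- the number of products of polynomials of degrees `D ≤ e`. -/
theorem card_red (D e : ℕ) (hDe : D ≤ e) (η : ℝ) (hη : 0 < η) :
    ∃ C : ℝ, 0 < C ∧ ∀ (U V : ℕ) (R : ℝ) (𝒜 : Finset (Polynomial ℤ)), 1 ≤ U → U ≤ V → 0 < R →
      (∀ f ∈ 𝒜, f ≠ 0 ∧ WBd U V (D + e) R f ∧
        ∃ g q : Polynomial ℤ, f = g * q ∧ g.natDegree = D ∧ q.natDegree = e) →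
      (#𝒜 : ℝ) ≤ C * (R ^ ((e : ℝ) + 1 + η) * (((U : ℝ) * V) ^ (e * (e + 1) / 2) *
        (((U : ℝ) * V) ^ (D * (D + 1) / 2) * (U : ℝ) ^ (D * (e - D)) *
          ((U : ℝ) * V) ^ (((D + e : ℕ) : ℝ) * η)))) := by
  classical
  obtain ⟨C, hC, hgam⟩ := sum_gam D e hDe η hη
  set C1 : ℝ := (D + 1) * (2 ^ (D + e) * ((D + e : ℕ) + 1)) with hC1
  have hC10 : 0 < C1 := by positivity
  refine ⟨3 ^ (e + 1) * C1 ^ ((e : ℝ) + 1 + η) * C, by positivity, fun U V R 𝒜 hU hUV hR h𝒜 => ?_⟩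
  have hUr : (1 : ℝ) ≤ U := by exact_mod_cast hU
  have hU0 : (0 : ℝ) < U := by linarith
  have hUVr : (U : ℝ) ≤ V := by exact_mod_cast hUV
  have hV0 : (0 : ℝ) < V := by linarith
  have hVr : (1 : ℝ) ≤ V := by linarith
  have hV : 1 ≤ V := hU.trans hUV
  -- the factors
  have key : ∀ f : Polynomial ℤ, ∃ g q : Polynomial ℤ, f ∈ 𝒜 →
      f = g * q ∧ g.natDegree = D ∧ q.natDegree = e := by
    intro f
    by_cases hf : f ∈ 𝒜
    · obtain ⟨-, -, g, q, h⟩ := h𝒜 f hf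
      exact ⟨g, q, fun _ => h⟩
    · exact ⟨0, 0, fun h => absurd h hf⟩
  choose g q hgq using key
  have hg0 : ∀ f ∈ 𝒜, g f ≠ 0 := by
    intro f hf h
    apply (h𝒜 f hf).1
    rw [(hgq f hf).1, h, zero_mul]
  have hq0 : ∀ f ∈ 𝒜, q f ≠ 0 := by
    intro f hf h
    apply (h𝒜 f hf).1
    rw [(hgq f hf).1, h, mul_zero]
  set κ : Polynomial ℤ → ℝ := fun p => C1 * R / gam U V D p with hκ
  have hγ : ∀ f ∈ 𝒜, 0 < gam U V D (g f) := by
    intro f hf
    have h1 : (g f).coeff D ≠ 0 := by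
      have := Polynomial.leadingCoeff_ne_zero.2 (hg0 f hf)
      unfold Polynomial.leadingCoeff at this
      rwa [(hgq f hf).2.1] at this
    exact (by positivity : (0 : ℝ) < ((U : ℝ) ^ D)⁻¹).trans_le (gam_lower U V D _ h1)
  have hκ0 : ∀ f ∈ 𝒜, 0 < κ (g f) := fun f hf => div_pos (by positivity) (hγ f hf)
  -- the coefficients of the second factor
  have hqb : ∀ f ∈ 𝒜, ∀ j, j ≤ e → |((q f).coeff j : ℝ)| ≤
      κ (g f) * (U : ℝ) ^ j * (V : ℝ) ^ (e - j) := by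
    intro f hf j hj
    obtain ⟨h1, h2, h3⟩ := hgq f hf
    have hW := (h𝒜 f hf).2.1
    rw [h1] at hW
    have h4 : gam U V D (g f) * |((q f).coeff j : ℝ)| ≤
        C1 * R * ((U : ℝ) ^ j * (V : ℝ) ^ (e - j)) := by
      unfold gam
      rw [sum_mul]
      have h5 : ∀ i ∈ (univ : Finset (Fin (D + 1))), |((g f).coeff i : ℝ)| /
          ((U : ℝ) ^ (i : ℕ) * (V : ℝ) ^ (D - i)) * |((q f).coeff j : ℝ)| ≤
          (2 ^ (D + e) * ((D + e : ℕ) + 1) * R) * ((U : ℝ) ^ j * (V : ℝ) ^ (e - j)) := by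
        intro i _
        have hi : (i : ℕ) ≤ D := Nat.lt_succ_iff.1 i.2
        have h6 := gelfond U V hU hV D e R (g f) (q f) h2.le h3.le hW i j hi hj
        rw [div_mul_eq_mul_div, div_le_iff₀ (by positivity)]
        refine h6.trans (le_of_eq ?_)
        ring
      refine (sum_le_sum h5).trans (le_of_eq ?_)
      rw [sum_const, card_univ, Fintype.card_fin, nsmul_eq_mul, hC1]
      push_cast
      ring
    have h5 : κ (g f) * (U : ℝ) ^ j * (V : ℝ) ^ (e - j) =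
        (C1 * R * ((U : ℝ) ^ j * (V : ℝ) ^ (e - j))) / gam U V D (g f) := by
      rw [hκ]
      dsimp only
      ring
    rw [h5, le_div_iff₀ (hγ f hf), mul_comm]
    exact h4
  have hκU : ∀ f ∈ 𝒜, 1 ≤ κ (g f) * (U : ℝ) ^ e := by
    intro f hf
    have h1 := hqb f hf e le_rfl
    rw [Nat.sub_self, pow_zero, mul_one] at h1
    refine le_trans ?_ h1
    have h2 : (q f).coeff e ≠ 0 := by
      have := Polynomial.leadingCoeff_ne_zero.2 (hq0 f hf)
      unfold Polynomial.leadingCoeff at this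
      rwa [(hgq f hf).2.2] at this
    exact_mod_cast Int.one_le_abs h2
  -- the fibres
  have hfib : ∀ p ∈ 𝒜.image g, (#{f ∈ 𝒜 | g f = p} : ℝ) ≤
      3 ^ (e + 1) * ((C1 * R) ^ ((e : ℝ) + 1 + η) * (gam U V D p) ^ (-((e : ℝ) + 1 + η)) *
        (U : ℝ) ^ ((e : ℝ) * η)) * ((U : ℝ) * V) ^ (e * (e + 1) / 2) := by
    intro p hp
    obtain ⟨f0, hf0, rfl⟩ := mem_image.1 hp
    set k : ℝ := κ (g f0) with hk
    have hk0 : 0 < k := hκ0 f0 hf0
    have hkU : 1 ≤ k * (U : ℝ) ^ e := hκU f0 hf0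
    let X : Fin (e + 1) → ℕ := fun j => ⌊k * (U : ℝ) ^ (j : ℕ) * (V : ℝ) ^ (e - j)⌋₊
    have h1 : #{f ∈ 𝒜 | g f = g f0} ≤
        #(Fintype.piFinset (fun j => Icc (-(X j : ℤ)) (X j))) := by
      refine card_le_card_of_injOn (fun f j => (q f).coeff j) ?_ ?_
      · intro f hf
        rw [mem_coe, mem_filter] at hf
        rw [mem_coe, Fintype.mem_piFinset]
        intro j
        rw [mem_Icc, ← abs_le]
        have h2 := hqb f hf.1 j (Nat.lt_succ_iff.1 j.2)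
        rw [hf.2] at h2
        rw [Int.abs_eq_natAbs]
        have h3 : ((q f).coeff (j : ℕ)).natAbs ≤ X j := by
          refine Nat.le_floor ?_
          rw [Nat.cast_natAbs, Int.cast_abs]
          exact h2
        exact_mod_cast h3
      · intro f hf f' hf' h
        rw [mem_coe, mem_filter] at hf hf'
        obtain ⟨h2, h3, h4⟩ := hgq f hf.1
        obtain ⟨h2', h3', h4'⟩ := hgq f' hf'.1
        have h5 : q f = q f' := by
          refine Polynomial.ext (fun i => ?_)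
          rcases Nat.lt_or_ge i (e + 1) with hi | hi
          · exact congrFun h ⟨i, hi⟩
          · rw [Polynomial.coeff_eq_zero_of_natDegree_lt (by omega),
              Polynomial.coeff_eq_zero_of_natDegree_lt (by omega)]
        rw [h2, h2', hf.2, hf'.2, h5]
    have h2 : (#(Fintype.piFinset (fun j => Icc (-(X j : ℤ)) (X j))) : ℝ) ≤
        ∏ j : Fin (e + 1), (3 * (k * (U : ℝ) ^ (j : ℕ) * (V : ℝ) ^ (e - j))) := by
      rw [Fintype.card_piFinset]
      push_cast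
      refine prod_le_prod (fun _ _ => Nat.cast_nonneg _) (fun j _ => ?_)
      rw [Int.card_Icc]
      have h3 : (((X j : ℤ) + 1 - -(X j : ℤ)).toNat : ℝ) = 2 * (X j : ℝ) + 1 := by
        have : ((X j : ℤ) + 1 - -(X j : ℤ)).toNat = 2 * X j + 1 := by omega
        rw [this]
        push_cast
        ring
      rw [h3]
      have h4 : (X j : ℝ) ≤ k * (U : ℝ) ^ (j : ℕ) * (V : ℝ) ^ (e - j) :=
        Nat.floor_le (by positivity)
      have h5 : (1 : ℝ) ≤ k * (U : ℝ) ^ (j : ℕ) * (V : ℝ) ^ (e - j) := by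
        refine hkU.trans ?_
        rw [mul_assoc]
        refine mul_le_mul_of_nonneg_left ?_ hk0.le
        have hj : (j : ℕ) ≤ e := Nat.lt_succ_iff.1 j.2
        calc (U : ℝ) ^ e = (U : ℝ) ^ (j : ℕ) * (U : ℝ) ^ (e - j) := by
              rw [← pow_add, Nat.add_sub_cancel' hj]
          _ ≤ _ := mul_le_mul_of_nonneg_left (pow_le_pow_left₀ hU0.le hUVr _) (by positivity)
      linarith
    have h3 : ∏ j : Fin (e + 1), (3 * (k * (U : ℝ) ^ (j : ℕ) * (V : ℝ) ^ (e - j))) =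
        3 ^ (e + 1) * (k ^ (e + 1) * ((U : ℝ) * V) ^ (e * (e + 1) / 2)) := by
      rw [prod_mul_distrib, prod_const, card_univ, Fintype.card_fin, prod_weights]
    have h4 : k ^ (e + 1) ≤ (C1 * R) ^ ((e : ℝ) + 1 + η) *
        (gam U V D (g f0)) ^ (-((e : ℝ) + 1 + η)) * (U : ℝ) ^ ((e : ℝ) * η) := by
      have e1 : (1 : ℝ) ≤ (k * (U : ℝ) ^ e) ^ η := Real.one_le_rpow hkU hη.le
      have e2 : (k * (U : ℝ) ^ e) ^ η = k ^ η * (U : ℝ) ^ ((e : ℝ) * η) := by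
        rw [Real.mul_rpow hk0.le (by positivity), ← Real.rpow_natCast (U : ℝ) e,
          ← Real.rpow_mul hU0.le]
      have e3 : k ^ (e + 1) * k ^ η = (C1 * R) ^ ((e : ℝ) + 1 + η) *
          (gam U V D (g f0)) ^ (-((e : ℝ) + 1 + η)) := by
        rw [← Real.rpow_natCast k (e + 1), ← Real.rpow_add hk0, hk, hκ]
        dsimp only
        rw [Real.div_rpow (by positivity) (hγ f0 hf0).le, Real.rpow_neg (hγ f0 hf0).le,
          div_eq_mul_inv]
        push_cast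
        rfl
      calc k ^ (e + 1) = k ^ (e + 1) * 1 := (mul_one _).symm
        _ ≤ k ^ (e + 1) * (k ^ η * (U : ℝ) ^ ((e : ℝ) * η)) := by
            rw [← e2]
            exact mul_le_mul_of_nonneg_left e1 (by positivity)
        _ = (k ^ (e + 1) * k ^ η) * (U : ℝ) ^ ((e : ℝ) * η) := by ring
        _ = _ := by rw [e3]
    have h5 : (#{f ∈ 𝒜 | g f = g f0} : ℝ) ≤
        3 ^ (e + 1) * (k ^ (e + 1) * ((U : ℝ) * V) ^ (e * (e + 1) / 2)) := by
      rw [← h3]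
      refine le_trans ?_ h2
      exact_mod_cast h1
    refine h5.trans ?_
    rw [← mul_assoc]
    refine mul_le_mul_of_nonneg_right ?_ (by positivity)
    exact mul_le_mul_of_nonneg_left h4 (by positivity)
  have hcard : (#𝒜 : ℝ) = ∑ p ∈ 𝒜.image g, (#{f ∈ 𝒜 | g f = p} : ℝ) := by
    have := card_eq_sum_card_image g 𝒜
    exact_mod_cast this
  rw [hcard]
  refine (sum_le_sum hfib).trans ?_
  have h1 := hgam U V (𝒜.image g) hU hUV (by
    intro p hp
    obtain ⟨f, hf, rfl⟩ := mem_image.1 hp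
    exact ⟨(hgq f hf).2.1, hg0 f hf⟩)
  have h2 : ∑ p ∈ 𝒜.image g, 3 ^ (e + 1) * ((C1 * R) ^ ((e : ℝ) + 1 + η) *
      (gam U V D p) ^ (-((e : ℝ) + 1 + η)) * (U : ℝ) ^ ((e : ℝ) * η)) *
        ((U : ℝ) * V) ^ (e * (e + 1) / 2) =
      (3 ^ (e + 1) * (C1 * R) ^ ((e : ℝ) + 1 + η) * (U : ℝ) ^ ((e : ℝ) * η) *
        ((U : ℝ) * V) ^ (e * (e + 1) / 2)) *
        ∑ p ∈ 𝒜.image g, (gam U V D p) ^ (-((e : ℝ) + 1 + η)) := by
    rw [mul_sum]
    exact sum_congr rfl (fun p _ => by ring)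
  rw [h2]
  have hUV0 : (0 : ℝ) < (U : ℝ) * V := by positivity
  refine (mul_le_mul_of_nonneg_left h1 (by positivity)).trans ?_
  rw [Real.mul_rpow hC10.le hR.le]
  have h3 : (U : ℝ) ^ ((e : ℝ) * η) * ((U : ℝ) * V) ^ (D * η) ≤
      ((U : ℝ) * V) ^ (((D + e : ℕ) : ℝ) * η) := by
    have e1 : ((D + e : ℕ) : ℝ) * η = e * η + D * η := by push_cast; ring
    rw [e1, Real.rpow_add hUV0]
    refine mul_le_mul_of_nonneg_right ?_ (by positivity)
    refine Real.rpow_le_rpow hU0.le ?_ (by positivity)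
    nlinarith
  calc 3 ^ (e + 1) * (C1 ^ ((e : ℝ) + 1 + η) * R ^ ((e : ℝ) + 1 + η)) * (U : ℝ) ^ ((e : ℝ) * η) *
        ((U : ℝ) * V) ^ (e * (e + 1) / 2) *
        (C * (((U : ℝ) * V) ^ (D * (D + 1) / 2) * (U : ℝ) ^ (D * (e - D)) *
          ((U : ℝ) * V) ^ (D * η)))
      = 3 ^ (e + 1) * C1 ^ ((e : ℝ) + 1 + η) * C * (R ^ ((e : ℝ) + 1 + η) *
        (((U : ℝ) * V) ^ (e * (e + 1) / 2) * (((U : ℝ) * V) ^ (D * (D + 1) / 2) *
          (U : ℝ) ^ (D * (e - D)) * ((U : ℝ) ^ ((e : ℝ) * η) * ((U : ℝ) * V) ^ (D * η))))) := by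
        ring
    _ ≤ _ := by
        refine mul_le_mul_of_nonneg_left ?_ (by positivity)
        refine mul_le_mul_of_nonneg_left ?_ (by positivity)
        refine mul_le_mul_of_nonneg_left ?_ (by positivity)
        exact mul_le_mul_of_nonneg_left h3 (by positivity)

end Pool.Agent.Q256.LN
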