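import Mathlib
import Pool.Agent.Q256.LN.Rdc
import Pool.Agent.Q256.VT.Cnt

set_option autoImplicit false

namespace Pool.Agent.Q256.LN

open Finset
open Pool.Agent.Q256.CI

theorem half_id (D e : ℕ) : e * (e + 1) / 2 + D * (D + 1) / 2 + D * e =
    (D + e) * (D + e + 1) / 2 := by
  have h1 := Nat.div_mul_cancel (Nat.even_mul_succ_self e).two_dvd
  have h2 := Nat.div_mul_cancel (Nat.even_mul_succ_self D).two_dvd
  have h3 := Nat.div_mul_cancel (Nat.even_mul_succ_self (D + e)).two_dvd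
  have h4 : (D + e) * (D + e + 1) = e * (e + 1) + D * (D + 1) + 2 * (D * e) := by ring
  omega

/-- the exponents. -/
theorem bd_le (N D e : ℕ) (hDe : D ≤ e) (hN : 2 * N < D * (D + e)) (η : ℝ)
    (hη : 4 * ((D + e : ℕ) : ℝ) * η ≤ 1) (U V : ℝ) (hU : 1 ≤ U) (hUV : U ≤ V) :
    (U * V) ^ (((D + e : ℕ) : ℝ) * η - D * e) * U ^ (D * (e - D)) ≤
      U ^ (-((N : ℝ) + 1 / 4)) * V ^ (-((N : ℝ) + 1 / 4)) := by
  have hU0 : 0 < U := by linarith
  have hV0 : 0 < V := by linarith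
  have hlU : 0 ≤ Real.log U := Real.log_nonneg hU
  have hlV : Real.log U ≤ Real.log V := Real.log_le_log hU0 hUV
  rw [← Real.mul_rpow hU0.le hV0.le, ← Real.rpow_natCast U (D * (e - D)),
    Real.rpow_def_of_pos (by positivity), Real.rpow_def_of_pos hU0,
    Real.rpow_def_of_pos (by positivity), ← Real.exp_add, Real.exp_le_exp,
    Real.log_mul hU0.ne' hV0.ne']
  push_cast [Nat.cast_sub hDe]
  have h1 : (2 : ℝ) * N + 1 ≤ D * (D + e) := by
    have : 2 * N + 1 ≤ D * (D + e) := hN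
    exact_mod_cast this
  have hDer : (D : ℝ) ≤ e := by exact_mod_cast hDe
  have hD0 : (0 : ℝ) ≤ D := Nat.cast_nonneg D
  push_cast at hη
  set dη : ℝ := ((D : ℝ) + e) * η with hdη
  have h2 : dη ≤ 1 / 4 := by rw [hdη]; linarith
  have h3 : (D : ℝ) * (D + e) ≤ 2 * (D * e) := by nlinarith
  have h4 : 0 ≤ D * e - dη - N - 1 / 4 := by linarith
  nlinarith [mul_le_mul_of_nonneg_left hlV h4,
    mul_nonneg (show (0 : ℝ) ≤ D * (D + e) - 2 * N - 2 * dη - 1 / 2 by linarith) hlU]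

/-- forms whose restriction to the line through `u` and `v` is a product of forms of degrees
`D` and `e`. -/
def Spl {n : ℕ} (D e B : ℕ) (u v : Fin (n + 2) → ℤ) : Set (MvPolynomial (Fin (n + 2)) ℤ) :=
  {F | F ∈ Box (n + 1) (D + e) B ∧ res u v F ≠ 0 ∧
    ∃ g q : Polynomial ℤ, res u v F = g * q ∧ g.natDegree = D ∧ q.natDegree = e}

/-- the count for one line. -/
theorem count_spl {n : ℕ} (D e : ℕ) (hDe : D ≤ e) (hN : 2 * (n + 2) < D * (D + e)) (η : ℝ)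
    (hη0 : 0 < η) (hη : 4 * ((D + e : ℕ) : ℝ) * η ≤ 1) :
    ∃ C : ℝ, 0 < C ∧ ∀ (L : Fin n → Fin (n + 2) → ℤ) (u v : Fin (n + 2) → ℤ) (H T : ℕ)
      (B : Finset (MvPolynomial (Fin (n + 2)) ℤ)),
      Reduced L u v → LinearIndependent ℚ (fun j => (fun k => (L j k : ℚ))) → 1 ≤ T → H ≤ T →
      (∀ j k, |L j k| ≤ T) → (∀ F ∈ B, F ∈ Spl D e H u v) →
      (#B : ℝ) ≤ C * (T : ℝ) ^ (((n + 1 + (D + e)).choose (n + 1) : ℝ) - D + η) *
        (((qq u : ℕ) : ℝ) ^ (-(((n + 2 : ℕ) : ℝ) + 1 / 4)) *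
          ((qq v : ℕ) : ℝ) ^ (-(((n + 2 : ℕ) : ℝ) + 1 / 4))) := by
  classical
  obtain ⟨C, hC, hred⟩ := card_red D e hDe η hη0
  set M : ℕ := (n + 1 + (D + e)).choose (n + 1) with hM
  have hM1 : 1 ≤ M := Nat.choose_pos (Nat.le_add_right _ _)
  set R0 : ℝ := M * 2 ^ (D + e) with hR0
  have hR00 : 0 < R0 := by
    have : (0 : ℝ) < M := by exact_mod_cast hM1
    positivity
  refine ⟨C * R0 ^ ((e : ℝ) + 1 + η) * (KL n (D + e) + 1), by
    have := KL_nonneg n (D + e)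
    positivity, fun L u v H T B hr hind hT hHT hL hB => ?_⟩
  have hTr : (1 : ℝ) ≤ T := by exact_mod_cast hT
  have hT0 : (0 : ℝ) < T := by linarith
  have hU := qq_pos u hr.u0
  have hUV := hr.le
  have hUr : (1 : ℝ) ≤ ((qq u : ℕ) : ℝ) := by exact_mod_cast hU
  have hUVr : ((qq u : ℕ) : ℝ) ≤ ((qq v : ℕ) : ℝ) := by exact_mod_cast hUV
  set U : ℝ := ((qq u : ℕ) : ℝ) with hUdef
  set V : ℝ := ((qq v : ℕ) : ℝ) with hVdef
  have hU0 : 0 < U := by linarith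
  have hV0 : 0 < V := by linarith
  -- the restrictions
  set 𝒜 : Finset (Polynomial ℤ) := B.image (res u v) with h𝒜
  have h1 := hred (qq u) (qq v) (R0 * T) 𝒜 hU hUV (by positivity) (by
    intro f hf
    obtain ⟨F, hF, rfl⟩ := mem_image.1 hf
    obtain ⟨h1, h2, h3⟩ := hB F hF
    refine ⟨h2, ?_, h3⟩
    have h4 : F ∈ Box (n + 1) (D + e) T :=
      ⟨h1.1, fun α => (h1.2 α).trans (by exact_mod_cast hHT)⟩
    have h5 := res_wbd u v F h4
    have h6 : (((n + 1 + (D + e)).choose (n + 1) : ℝ)) * (T * 2 ^ (D + e)) = R0 * T := by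
      rw [hR0, hM]; ring
    rw [h6] at h5
    exact h5)
  -- the fibres
  have h2 : ∀ f ∈ 𝒜, (#{F ∈ B | res u v F = f} : ℝ) ≤
      (KL n (D + e) + 1) * ((T : ℝ) ^ ((M : ℝ) - (D + e + 1)) *
        (U * V) ^ (-(((D + e) * (D + e + 1) / 2 : ℕ) : ℝ))) := by
    intro f _
    have h3 : (#{F ∈ B | res u v F = f} : ℝ) ≤ Nat.card (VanL (D + e) H u v f) := by
      rw [Nat.card_coe_set_eq, Set.ncard_eq_toFinset_card _ (finite_vanL (D + e) H u v f)]
      have h4 : B.filter (fun F => res u v F = f) ⊆ (finite_vanL (D + e) H u v f).toFinset := by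
        intro F hF
        rw [mem_filter] at hF
        rw [Set.Finite.mem_toFinset]
        exact ⟨(hB F hF.1).1, hF.2⟩
      exact_mod_cast card_le_card h4
    have h4 := countL_real hr hind T hT hL (D + e) H hHT f
    have h5 : (0 : ℝ) < (U * V) ^ ((D + e) * (D + e + 1) / 2) * (T : ℝ) ^ (D + e + 1) := by
      positivity
    have h6 : (Nat.card (VanL (D + e) H u v f) : ℝ) ≤ KL n (D + e) * (T : ℝ) ^ M /
        ((U * V) ^ ((D + e) * (D + e + 1) / 2) * (T : ℝ) ^ (D + e + 1)) := by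
      rw [le_div_iff₀ h5, ← mul_assoc]
      exact h4
    refine h3.trans (h6.trans ?_)
    have h7 : KL n (D + e) * (T : ℝ) ^ M /
        ((U * V) ^ ((D + e) * (D + e + 1) / 2) * (T : ℝ) ^ (D + e + 1)) =
        KL n (D + e) * ((T : ℝ) ^ ((M : ℝ) - (D + e + 1)) *
        (U * V) ^ (-(((D + e) * (D + e + 1) / 2 : ℕ) : ℝ))) := by
      rw [Real.rpow_sub hT0, Real.rpow_neg (by positivity), Real.rpow_natCast, Real.rpow_natCast]
      have : (T : ℝ) ^ ((D : ℝ) + e + 1) = (T : ℝ) ^ (D + e + 1) := by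
        rw [← Real.rpow_natCast]; push_cast; rfl
      rw [this]
      field_simp
    rw [h7]
    refine mul_le_mul_of_nonneg_right ?_ (by positivity)
    linarith
  have hcard : (#B : ℝ) = ∑ f ∈ 𝒜, (#{F ∈ B | res u v F = f} : ℝ) := by
    have := card_eq_sum_card_image (res u v) B
    exact_mod_cast this
  have h3 : (#B : ℝ) ≤ #𝒜 * ((KL n (D + e) + 1) * ((T : ℝ) ^ ((M : ℝ) - (D + e + 1)) *
        (U * V) ^ (-(((D + e) * (D + e + 1) / 2 : ℕ) : ℝ)))) := by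
    rw [hcard]
    refine (sum_le_sum h2).trans ?_
    rw [sum_const, nsmul_eq_mul]
  have hK := KL_nonneg n (D + e)
  refine h3.trans ((mul_le_mul_of_nonneg_right h1 (by positivity)).trans ?_)
  rw [Real.mul_rpow hR00.le hT0.le]
  have hUV0 : 0 < U * V := by positivity
  have e1 : (T : ℝ) ^ ((e : ℝ) + 1 + η) * (T : ℝ) ^ ((M : ℝ) - (D + e + 1)) =
      (T : ℝ) ^ ((M : ℝ) - D + η) := by
    rw [← Real.rpow_add hT0]
    congr 1
    ring
  have e2 : (U * V) ^ (e * (e + 1) / 2) * (U * V) ^ (D * (D + 1) / 2) *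
      (U * V) ^ (((D + e : ℕ) : ℝ) * η) *
      (U * V) ^ (-(((D + e) * (D + e + 1) / 2 : ℕ) : ℝ)) =
      (U * V) ^ (((D + e : ℕ) : ℝ) * η - D * e) := by
    rw [← Real.rpow_natCast (U * V) (e * (e + 1) / 2), ← Real.rpow_natCast (U * V) (D * (D + 1) / 2),
      ← Real.rpow_add hUV0, ← Real.rpow_add hUV0, ← Real.rpow_add hUV0]
    congr 1
    have := half_id D e
    have h4 : ((e * (e + 1) / 2 : ℕ) : ℝ) + ((D * (D + 1) / 2 : ℕ) : ℝ) + D * e =
        (((D + e) * (D + e + 1) / 2 : ℕ) : ℝ) := by exact_mod_cast this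
    linarith
  have h4 := bd_le (n + 2) D e hDe hN η hη U V hUr hUVr
  calc C * (R0 ^ ((e : ℝ) + 1 + η) * (T : ℝ) ^ ((e : ℝ) + 1 + η) * ((U * V) ^ (e * (e + 1) / 2) *
        ((U * V) ^ (D * (D + 1) / 2) * U ^ (D * (e - D)) *
          (U * V) ^ (((D + e : ℕ) : ℝ) * η)))) *
        ((KL n (D + e) + 1) * ((T : ℝ) ^ ((M : ℝ) - (D + e + 1)) *
        (U * V) ^ (-(((D + e) * (D + e + 1) / 2 : ℕ) : ℝ))))
      = C * R0 ^ ((e : ℝ) + 1 + η) * (KL n (D + e) + 1) *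
        ((T : ℝ) ^ ((e : ℝ) + 1 + η) * (T : ℝ) ^ ((M : ℝ) - (D + e + 1))) *
        (((U * V) ^ (e * (e + 1) / 2) * (U * V) ^ (D * (D + 1) / 2) *
      (U * V) ^ (((D + e : ℕ) : ℝ) * η) *
      (U * V) ^ (-(((D + e) * (D + e + 1) / 2 : ℕ) : ℝ))) * U ^ (D * (e - D))) := by ring
    _ = C * R0 ^ ((e : ℝ) + 1 + η) * (KL n (D + e) + 1) * (T : ℝ) ^ ((M : ℝ) - D + η) *
        ((U * V) ^ (((D + e : ℕ) : ℝ) * η - D * e) * U ^ (D * (e - D))) := by rw [e1, e2]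
    _ ≤ _ := mul_le_mul_of_nonneg_left h4 (by positivity)

/-- **The number of forms which split on some line.** -/
theorem count_lines {n : ℕ} (D e : ℕ) (hDe : D ≤ e) (hN : 2 * (n + 2) < D * (D + e)) (ε : ℝ)
    (hε : 0 < ε) :
    ∃ C : ℝ, 0 < C ∧ ∀ (H T : ℕ) (B : Finset (MvPolynomial (Fin (n + 2)) ℤ)), 1 ≤ T → H ≤ T →
      (∀ F ∈ B, ∃ (L : Fin n → Fin (n + 2) → ℤ) (u v : Fin (n + 2) → ℤ), Reduced L u v ∧
        LinearIndependent ℚ (fun j => (fun k => (L j k : ℚ))) ∧ (∀ j k, |L j k| ≤ T) ∧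
        F ∈ Spl D e H u v) →
      (#B : ℝ) ≤ C * (T : ℝ) ^ (((n + 1 + (D + e)).choose (n + 1) : ℝ) - D + ε) := by
  classical
  have hde : 0 < D + e := by
    by_contra h
    have : D + e = 0 := by omega
    rw [this] at hN
    omega
  have hder : (0 : ℝ) < ((D + e : ℕ) : ℝ) := by exact_mod_cast hde
  set η : ℝ := min ε (1 / (4 * ((D + e : ℕ) : ℝ))) with hη
  have hη0 : 0 < η := lt_min hε (by positivity)
  have hη1 : 4 * ((D + e : ℕ) : ℝ) * η ≤ 1 := by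
    have : η ≤ 1 / (4 * ((D + e : ℕ) : ℝ)) := min_le_right _ _
    rw [le_div_iff₀ (by positivity)] at this
    linarith
  obtain ⟨C, hC, hone⟩ := count_spl (n := n) D e hDe hN η hη0 hη1
  have hs := Pool.Agent.Q256.VT.summ_real (n + 1) (-(((n + 2 : ℕ) : ℝ) + 1 / 4))
    (by push_cast; linarith)
  set S : ℝ := ∑' y : Fin (n + 2) → ℤ, ‖(fun k => (y k : ℝ))‖ ^ (-(((n + 2 : ℕ) : ℝ) + 1 / 4))
    with hS
  have hS0 : 0 ≤ S := tsum_nonneg (fun y => by positivity)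
  refine ⟨C * (S * S + 1), by positivity, fun H T B hT hHT hB => ?_⟩
  have hTr : (1 : ℝ) ≤ T := by exact_mod_cast hT
  have key : ∀ F : MvPolynomial (Fin (n + 2)) ℤ, ∃ p : (Fin (n + 2) → ℤ) × (Fin (n + 2) → ℤ),
      F ∈ B → ∃ L : Fin n → Fin (n + 2) → ℤ, Reduced L p.1 p.2 ∧
        LinearIndependent ℚ (fun j => (fun k => (L j k : ℚ))) ∧ (∀ j k, |L j k| ≤ T) ∧
        F ∈ Spl D e H p.1 p.2 := by
    intro F
    by_cases hF : F ∈ B
    · obtain ⟨L, u, v, h⟩ := hB F hF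
      exact ⟨(u, v), fun _ => ⟨L, h⟩⟩
    · exact ⟨0, fun h => absurd h hF⟩
  choose P hP using key
  have hcard : (#B : ℝ) = ∑ p ∈ B.image P, (#{F ∈ B | P F = p} : ℝ) := by
    have := card_eq_sum_card_image P B
    exact_mod_cast this
  let φ : (Fin (n + 2) → ℤ) → ℝ := fun y => ((qq y : ℕ) : ℝ) ^ (-(((n + 2 : ℕ) : ℝ) + 1 / 4))
  have hφ0 : ∀ y, 0 ≤ φ y := fun y => by
    change 0 ≤ ((qq y : ℕ) : ℝ) ^ (-(((n + 2 : ℕ) : ℝ) + 1 / 4))
    positivity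
  have hsφ : ∀ W : Finset (Fin (n + 2) → ℤ), ∑ y ∈ W, φ y ≤ S := by
    intro W
    have h1 : ∀ y : Fin (n + 2) → ℤ, φ y =
        ‖(fun k => (y k : ℝ))‖ ^ (-(((n + 2 : ℕ) : ℝ) + 1 / 4)) := by
      intro y
      rw [norm_eq_qq]
    simp_rw [h1]
    exact hs.sum_le_tsum _ (fun y _ => by positivity)
  have hfib : ∀ p ∈ B.image P, (#{F ∈ B | P F = p} : ℝ) ≤
      C * (T : ℝ) ^ (((n + 1 + (D + e)).choose (n + 1) : ℝ) - D + η) * (φ p.1 * φ p.2) := by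
    intro p hp
    obtain ⟨F0, hF0, rfl⟩ := mem_image.1 hp
    obtain ⟨L, h1, h2, h3, -⟩ := hP F0 hF0
    refine hone L (P F0).1 (P F0).2 H T _ h1 h2 hT hHT h3 (fun F hF => ?_)
    rw [mem_filter] at hF
    obtain ⟨L', -, -, -, h4⟩ := hP F hF.1
    rw [hF.2] at h4
    exact h4
  rw [hcard]
  refine (sum_le_sum hfib).trans ?_
  rw [← mul_sum]
  have h1 : ∑ p ∈ B.image P, φ p.1 * φ p.2 ≤ S * S := by
    set W1 := (B.image P).image Prod.fst
    set W2 := (B.image P).image Prod.snd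
    have h2 : B.image P ⊆ W1 ×ˢ W2 := by
      intro p hp
      rw [mem_product]
      exact ⟨mem_image_of_mem _ hp, mem_image_of_mem _ hp⟩
    calc ∑ p ∈ B.image P, φ p.1 * φ p.2 ≤ ∑ p ∈ W1 ×ˢ W2, φ p.1 * φ p.2 :=
          sum_le_sum_of_subset_of_nonneg h2 (fun p _ _ => mul_nonneg (hφ0 _) (hφ0 _))
      _ = (∑ y ∈ W1, φ y) * ∑ y ∈ W2, φ y := by
          rw [sum_product, sum_mul_sum]
      _ ≤ S * S := mul_le_mul (hsφ _) (hsφ _) (sum_nonneg (fun _ _ => hφ0 _)) hS0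
  have h2 : (T : ℝ) ^ (((n + 1 + (D + e)).choose (n + 1) : ℝ) - D + η) ≤
      (T : ℝ) ^ (((n + 1 + (D + e)).choose (n + 1) : ℝ) - D + ε) := by
    refine Real.rpow_le_rpow_of_exponent_le hTr ?_
    have : η ≤ ε := min_le_left _ _
    linarith
  calc C * (T : ℝ) ^ (((n + 1 + (D + e)).choose (n + 1) : ℝ) - D + η) *
        ∑ p ∈ B.image P, φ p.1 * φ p.2
      ≤ C * (T : ℝ) ^ (((n + 1 + (D + e)).choose (n + 1) : ℝ) - D + ε) * (S * S + 1) := by
        refine mul_le_mul (mul_le_mul_of_nonneg_left h2 hC.le) (by linarith)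
          (sum_nonneg (fun p _ => mul_nonneg (hφ0 _) (hφ0 _))) (by positivity)
    _ = _ := by ring

end Pool.Agent.Q256.LN
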