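import Mathlib
import Pool.Agent.Q256.LN.Main

set_option autoImplicit false

/-!
Algebraic points on a line.
-/

namespace Pool.Agent.Q256.LN

open Finset
open Pool.Agent.Q256.CI

/-- integral polynomials with an algebraic root. -/
theorem exists_factor (f : Polynomial ℤ) (hf : f ≠ 0) (ϑ : ℂ) (h : Polynomial.aeval ϑ f = 0) :
    ∃ g q : Polynomial ℤ, f = g * q ∧ g.natDegree = (minpoly ℚ ϑ).natDegree := by
  have h1 := UniqueFactorizationMonoid.factors_prod hf
  have h2 : Polynomial.aeval ϑ (UniqueFactorizationMonoid.factors f).prod = 0 := by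
    obtain ⟨c, hc⟩ := h1
    rw [← hc, map_mul] at h
    refine (mul_eq_zero.1 h).resolve_right ?_
    exact (c.isUnit.map (Polynomial.aeval ϑ)).ne_zero
  rw [map_multiset_prod, Multiset.prod_eq_zero_iff, Multiset.mem_map] at h2
  obtain ⟨p, hp, hp0⟩ := h2
  have hirr := UniqueFactorizationMonoid.irreducible_of_factor p hp
  have hdvd : p ∣ f := UniqueFactorizationMonoid.dvd_of_mem_factors hp
  have hdeg : p.natDegree ≠ 0 := by
    intro h0
    rw [Polynomial.natDegree_eq_zero] at h0
    obtain ⟨c, rfl⟩ := h0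
    rw [Polynomial.aeval_C] at hp0
    have : c = 0 := by
      simpa using hp0
    exact hirr.ne_zero (by rw [this, Polynomial.C_0])
  have hprim := hirr.isPrimitive hdeg
  have hirr2 := (Polynomial.IsPrimitive.Int.irreducible_iff_irreducible_map_cast hprim).1 hirr
  have hp1 : Polynomial.aeval ϑ (p.map (Int.castRingHom ℚ)) = 0 := by
    have := Polynomial.aeval_map_algebraMap ℚ ϑ p
    rw [show algebraMap ℤ ℚ = Int.castRingHom ℚ from rfl] at this
    rw [this, hp0]
  have h3 := minpoly.eq_of_irreducible hirr2 hp1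
  obtain ⟨q, hq⟩ := hdvd
  refine ⟨p, q, hq, ?_⟩
  rw [← h3, Polynomial.natDegree_mul_C]
  · rw [Polynomial.natDegree_map_eq_of_injective]
    exact Int.cast_injective
  · exact inv_ne_zero (Polynomial.leadingCoeff_ne_zero.2 hirr2.ne_zero)

theorem res_aeval {N : ℕ} (u v : Fin N → ℤ) (F : MvPolynomial (Fin N) ℤ) (s : ℂ) :
    Polynomial.aeval s (res u v F) = MvPolynomial.aeval (fun k => s * (u k : ℂ) + v k) F := by
  unfold res
  induction F using MvPolynomial.induction_on with
  | C a => simp
  | add p q hp hq => simp only [map_add, hp, hq]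
  | mul_X p k hp =>
    simp only [map_mul, hp, MvPolynomial.aeval_X]
    simp [mul_comm]

/-- the leading coefficient of products of linear polynomials. -/
theorem lead_list {N : ℕ} (u v : Fin N → ℤ) (l : List (Fin N)) :
    (l.map (fun k => Polynomial.C (u k) * Polynomial.X + Polynomial.C (v k))).prod.coeff l.length =
      (l.map u).prod := by
  classical
  have hb : ∀ (w : Fin N → ℤ) (k : Fin N), |w k| ≤ ((∑ k, (w k).natAbs : ℕ) : ℤ) := by
    intro w k
    rw [Int.abs_eq_natAbs]
    exact_mod_cast single_le_sum (f := fun k => (w k).natAbs) (fun _ _ => Nat.zero_le _) (mem_univ k)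
  induction l with
  | nil => simp
  | cons k l ih =>
    have h1 := (wbd_monomial u v (hb u) (hb v) l).2 (l.length + 1) (Nat.lt_succ_self _)
    rw [List.map_cons, List.prod_cons, List.length_cons, List.map_cons, List.prod_cons, add_mul,
      Polynomial.coeff_add, Polynomial.coeff_C_mul, h1, mul_zero, add_zero, mul_assoc,
      Polynomial.coeff_C_mul, Polynomial.coeff_X_mul, ih]

theorem res_lead {n d : ℕ} (u v : Fin (n + 1) → ℤ) (F : MvPolynomial (Fin (n + 1)) ℤ)
    (hF : F.IsHomogeneous d) : (res u v F).coeff d = MvPolynomial.eval u F := by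
  classical
  have h1 : res u v F = ∑ α ∈ F.support, Polynomial.C (F.coeff α) *
      ∏ k, (Polynomial.C (u k) * Polynomial.X + Polynomial.C (v k)) ^ (α k) := by
    unfold res
    rw [MvPolynomial.aeval_def, MvPolynomial.eval₂_eq']
    rfl
  rw [h1, Polynomial.finsetSum_coeff, MvPolynomial.eval_eq']
  refine sum_congr rfl (fun α hα => ?_)
  rw [Polynomial.coeff_C_mul]
  congr 1
  have hdeg : ∑ k, α k = d := by
    have := hF (MvPolynomial.mem_support_iff.1 hα)
    rw [← this, Finsupp.weight_apply, Finsupp.sum_fintype]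
    · simp
    · simp
  let l : List (Fin (n + 1)) := (Finsupp.toMultiset α).toList
  have hl1 : l.length = d := by
    rw [Multiset.length_toList, Finsupp.card_toMultiset, Finsupp.sum_fintype _ _ (fun _ => rfl)]
    exact hdeg
  have hl2 : ∀ {R : Type} [CommRing R] (w : Fin (n + 1) → R),
      (l.map w).prod = ∏ k, (w k) ^ (α k) := by
    intro R _ w
    rw [← Multiset.prod_coe, ← Multiset.map_coe, Multiset.coe_toList, Finsupp.toMultiset_apply]
    rw [Finsupp.sum_fintype _ _ (fun _ => by simp)]
    have e1 := map_sum (Multiset.mapAddMonoidHom w) (fun k => α k • {k}) univ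
    simp only [Multiset.coe_mapAddMonoidHom] at e1
    rw [e1, Multiset.prod_sum]
    refine prod_congr rfl (fun k _ => ?_)
    rw [Multiset.map_nsmul, Multiset.prod_nsmul, Multiset.map_singleton, Multiset.prod_singleton]
  rw [← hl2, ← hl2]
  have := lead_list u v l
  rw [hl1] at this
  exact this

/-- the degree of a fractional linear transform. -/
theorem degree_moebius (θ : ℂ) (hθ : IsAlgebraic ℚ θ) (s1 s2 t1 t2 : ℤ)
    (hdet : s1 * t2 - s2 * t1 ≠ 0) (hτ : (t1 : ℂ) + θ * t2 ≠ 0) :
    (minpoly ℚ (((s1 : ℂ) + θ * s2) / ((t1 : ℂ) + θ * t2))).natDegree =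
      (minpoly ℚ θ).natDegree := by
  set ϑ : ℂ := ((s1 : ℂ) + θ * s2) / ((t1 : ℂ) + θ * t2) with hϑ
  have hdetC : (s1 : ℂ) * t2 - s2 * t1 ≠ 0 := by exact_mod_cast hdet
  have hrel : ϑ * ((t1 : ℂ) + θ * t2) = (s1 : ℂ) + θ * s2 := by
    rw [hϑ, div_mul_cancel₀ _ hτ]
  have hden : ϑ * t2 - s2 ≠ 0 := by
    intro h
    apply hdetC
    have h1 : (s1 : ℂ) = ϑ * t1 := by linear_combination (-1 : ℂ) * hrel + θ * h
    have h2 : (s2 : ℂ) = ϑ * t2 := by linear_combination (-1 : ℂ) * h
    rw [h1, h2]
    ring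
  have hθ' : θ = ((s1 : ℂ) - ϑ * t1) / (ϑ * t2 - s2) := by
    rw [eq_div_iff hden]
    linear_combination hrel
  have hint : ∀ (K : IntermediateField ℚ ℂ) (a : ℤ), (a : ℂ) ∈ K := fun K a => intCast_mem K a
  have h1 : IntermediateField.adjoin ℚ {ϑ} = IntermediateField.adjoin ℚ {θ} := by
    apply le_antisymm
    · rw [IntermediateField.adjoin_le_iff, Set.singleton_subset_iff]
      have hmem : θ ∈ IntermediateField.adjoin ℚ {θ} :=
        IntermediateField.mem_adjoin_simple_self ℚ θ
      exact div_mem (add_mem (hint _ _) (mul_mem hmem (hint _ _)))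
        (add_mem (hint _ _) (mul_mem hmem (hint _ _)))
    · rw [IntermediateField.adjoin_le_iff, Set.singleton_subset_iff]
      have hmem : ϑ ∈ IntermediateField.adjoin ℚ {ϑ} :=
        IntermediateField.mem_adjoin_simple_self ℚ ϑ
      have : θ ∈ (IntermediateField.adjoin ℚ {ϑ} : IntermediateField ℚ ℂ) := by
        rw [hθ']
        exact div_mem (sub_mem (hint _ _) (mul_mem hmem (hint _ _)))
          (sub_mem (mul_mem hmem (hint _ _)) (hint _ _))
      exact this
  have hθi : IsIntegral ℚ θ := hθ.isIntegral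
  have hϑi : IsIntegral ℚ ϑ := by
    have hfd : FiniteDimensional ℚ (IntermediateField.adjoin ℚ {θ}) :=
      IntermediateField.adjoin.finiteDimensional hθi
    have hmem : ϑ ∈ IntermediateField.adjoin ℚ {θ} := by
      rw [← h1]
      exact IntermediateField.mem_adjoin_simple_self ℚ ϑ
    have h2 := IsIntegral.of_finite ℚ (⟨ϑ, hmem⟩ : IntermediateField.adjoin ℚ {θ})
    exact h2.map (IntermediateField.val (IntermediateField.adjoin ℚ {θ}))
  rw [← IntermediateField.adjoin.finrank hϑi, ← IntermediateField.adjoin.finrank hθi, h1]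

end Pool.Agent.Q256.LN
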