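import Mathlib
import Pool.Agent.Q256.LN.Alg
import Pool.Agent.Q256.CI.Fin

set_option autoImplicit false

namespace Pool.Agent.Q256.LN

open Finset
open Pool.Agent.Q256.CI

/-- Forms `F` of degree `d` with coefficients in `[-H, H]` such that the hypersurface `F = 0` has a
point of degree less than `d` on some rational line cut out by `n` independent linear forms with
integral coefficients in `[-T, T]`: the points of the line through `a` and `b` are `b` and the
`a + θ b`, and the degree of `a + θ b` is the degree of the algebraic number `θ`. -/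
def LowDeg {n : ℕ} (d H T : ℕ) : Set (MvPolynomial (Fin (n + 2)) ℤ) :=
  {F | F ∈ Box (n + 1) d H ∧ ∃ L : Fin n → Fin (n + 2) → ℤ, (∀ j k, |L j k| ≤ T) ∧
    LinearIndependent ℚ (fun j => (fun k => (L j k : ℚ))) ∧
    ∃ (a b : Fin (n + 2) → ℤ) (θ : ℂ), InL L a ∧ InL L b ∧ (∃ i j, a i * b j ≠ a j * b i) ∧
      IsAlgebraic ℚ θ ∧ (minpoly ℚ θ).natDegree < d ∧
      MvPolynomial.aeval (fun k => (a k : ℂ) + θ * b k) F = 0}

/-- forms which split on some line. -/
def SplAll {n : ℕ} (D e H T : ℕ) : Set (MvPolynomial (Fin (n + 2)) ℤ) :=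
  {F | ∃ (L : Fin n → Fin (n + 2) → ℤ) (u v : Fin (n + 2) → ℤ), Reduced L u v ∧
    LinearIndependent ℚ (fun j => (fun k => (L j k : ℚ))) ∧ (∀ j k, |L j k| ≤ T) ∧
    F ∈ Spl D e H u v}

theorem aeval_scaleC {n d : ℕ} (F : MvPolynomial (Fin (n + 1)) ℤ) (hF : F.IsHomogeneous d)
    (x : Fin (n + 1) → ℂ) (c : ℂ) :
    MvPolynomial.aeval (fun k => c * x k) F = c ^ d * MvPolynomial.aeval x F := by
  rw [MvPolynomial.aeval_def, MvPolynomial.aeval_def, MvPolynomial.eval₂_eq',
    MvPolynomial.eval₂_eq', mul_sum]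
  refine sum_congr rfl (fun α hα => ?_)
  have h3 : ∑ k, α k = d := by
    have := hF (MvPolynomial.mem_support_iff.1 hα)
    rw [← this, Finsupp.weight_apply, Finsupp.sum_fintype]
    · simp
    · simp
  have h4 : ∏ k, (c * x k) ^ (α k) = c ^ d * ∏ k, x k ^ (α k) := by
    simp_rw [mul_pow]
    rw [prod_mul_distrib, prod_pow_eq_pow_sum, h3]
  rw [h4]
  ring

/-- a rational zero on the line. -/
theorem lineBad_of {n d H T : ℕ} {F : MvPolynomial (Fin (n + 2)) ℤ} (hF : F ∈ Box (n + 1) d H)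
    {L : Fin n → Fin (n + 2) → ℤ} (hL : ∀ j k, |L j k| ≤ T)
    (hind : LinearIndependent ℚ (fun j => (fun k => (L j k : ℚ)))) {u v : Fin (n + 2) → ℤ}
    (h : Reduced L u v) (r s : ℚ) (hrs : ¬ (r = 0 ∧ s = 0))
    (hz : MvPolynomial.aeval (fun k => (r : ℂ) * u k + (s : ℂ) * v k) F = 0) :
    (fun _ : Fin 1 => F) ∈ LineBad (n := n) 1 d H T := by
  refine ⟨fun _ => hF, fun k => r * u k + s * v k, ?_, ⟨L, hL, hind, fun j => ?_⟩, fun _ => ?_⟩
  · intro h0
    apply hrs
    exact h.indep r s (fun k => congrFun h0 k)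
  · have h1 : ∑ k, (L j k : ℚ) * u k = 0 := by exact_mod_cast h.hu j
    have h2 : ∑ k, (L j k : ℚ) * v k = 0 := by exact_mod_cast h.hv j
    have h3 : ∀ k, (L j k : ℚ) * (r * u k + s * v k) =
        r * ((L j k : ℚ) * u k) + s * ((L j k : ℚ) * v k) := fun k => by ring
    simp_rw [h3]
    rw [sum_add_distrib, ← mul_sum, ← mul_sum, h1, h2]
    ring
  · have h1 : ((MvPolynomial.aeval (fun k => r * (u k : ℚ) + s * v k) F : ℚ) : ℂ) = 0 := by
      rw [← hz, MvPolynomial.aeval_def, MvPolynomial.aeval_def, MvPolynomial.eval₂_eq',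
        MvPolynomial.eval₂_eq']
      push_cast
      refine sum_congr rfl (fun α _ => ?_)
      simp
    exact_mod_cast h1

theorem lowDeg_sub {n d H T : ℕ} : LowDeg (n := n) d H T ⊆
    {F | (fun _ : Fin 1 => F) ∈ LineBad (n := n) 1 d H T} ∪
      {F | ∃ D e : ℕ, 2 ≤ D ∧ D ≤ e ∧ D + e = d ∧ F ∈ SplAll (n := n) D e H T} := by
  rintro F ⟨hF, L, hL, hind, a, b, θ, ha, hb, hab, hθ, hdeg, hz⟩
  by_cases hbad : (fun _ : Fin 1 => F) ∈ LineBad (n := n) 1 d H T
  · exact Or.inl hbad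
  refine Or.inr ?_
  obtain ⟨u, v, h⟩ := exists_reduced L hind
  obtain ⟨s1, t1, h1⟩ := h.span a ha
  obtain ⟨s2, t2, h2⟩ := h.span b hb
  have hdet : s1 * t2 - s2 * t1 ≠ 0 := by
    intro h0
    obtain ⟨i, j, hij⟩ := hab
    apply hij
    rw [h1 i, h1 j, h2 i, h2 j]
    have : (s1 * u i + t1 * v i) * (s2 * u j + t2 * v j) -
        (s1 * u j + t1 * v j) * (s2 * u i + t2 * v i) =
        (s1 * t2 - s2 * t1) * (u i * v j - u j * v i) := by ring
    rw [h0, zero_mul] at this
    linarith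
  have hdetC : (s1 : ℂ) * t2 - s2 * t1 ≠ 0 := by exact_mod_cast hdet
  set σ : ℂ := (s1 : ℂ) + θ * s2 with hσ
  set τ : ℂ := (t1 : ℂ) + θ * t2 with hτ
  have hx : (fun k => (a k : ℂ) + θ * b k) = fun k => σ * (u k : ℂ) + τ * v k := by
    funext k
    rw [h1 k, h2 k, hσ, hτ]
    push_cast
    ring
  rw [hx] at hz
  have hτ0 : τ ≠ 0 := by
    intro h0
    have hσ0 : σ ≠ 0 := by
      intro h3
      apply hdetC
      have e1 : (s1 : ℂ) = -(θ * s2) := by rw [hσ] at h3; linear_combination h3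
      have e2 : (t1 : ℂ) = -(θ * t2) := by rw [hτ] at h0; linear_combination h0
      rw [e1, e2]; ring
    apply hbad
    refine lineBad_of hF hL hind h 1 0 (by simp) ?_
    have e3 : (fun k => σ * (u k : ℂ) + τ * v k) = fun k => σ * (u k : ℂ) := by
      funext k; rw [h0]; ring
    rw [e3, aeval_scaleC F hF.1 (fun k => (u k : ℂ)) σ] at hz
    have e4 := (mul_eq_zero.1 hz).resolve_left (pow_ne_zero d hσ0)
    have e5 : (fun k => ((1 : ℚ) : ℂ) * (u k : ℂ) + ((0 : ℚ) : ℂ) * v k) =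
        fun k => (u k : ℂ) := by funext k; simp
    rw [e5]
    exact e4
  -- the root
  have hroot : MvPolynomial.aeval (fun k => σ / τ * (u k : ℂ) + v k) F = 0 := by
    have e1 : (fun k => σ / τ * (u k : ℂ) + v k) = fun k => τ⁻¹ * (σ * (u k : ℂ) + τ * v k) := by
      funext k; field_simp
    rw [e1, aeval_scaleC F hF.1 _ τ⁻¹, hz, mul_zero]
  have hres : Polynomial.aeval (σ / τ) (res u v F) = 0 := by rw [res_aeval]; exact hroot
  have hlead : MvPolynomial.eval u F ≠ 0 := by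
    intro h0
    apply hbad
    refine lineBad_of hF hL hind h 1 0 (by simp) ?_
    have e5 : (fun k => ((1 : ℚ) : ℂ) * (u k : ℂ) + ((0 : ℚ) : ℂ) * v k) =
        fun k => (u k : ℂ) := by funext k; simp
    rw [e5]
    have e6 : MvPolynomial.aeval (fun k => (u k : ℂ)) F = ((MvPolynomial.eval u F : ℤ) : ℂ) := by
      rw [MvPolynomial.aeval_def, MvPolynomial.eval₂_eq', MvPolynomial.eval_eq']
      push_cast
      refine sum_congr rfl (fun α _ => ?_)
      simp
    rw [e6, h0]
    simp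
  have hco : (res u v F).coeff d ≠ 0 := by
    rw [res_lead u v F hF.1]
    exact hlead
  have hres0 : res u v F ≠ 0 := by
    intro h0
    rw [h0] at hco
    simp at hco
  have hnd : (res u v F).natDegree = d := by
    apply le_antisymm
    · rw [Polynomial.natDegree_le_iff_coeff_eq_zero]
      exact (res_wbd u v F hF).2
    · exact Polynomial.le_natDegree_of_ne_zero hco
  obtain ⟨g, q, hgq, hg⟩ := exists_factor (res u v F) hres0 (σ / τ) hres
  rw [degree_moebius θ hθ s1 s2 t1 t2 hdet hτ0] at hg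
  have hg0 : g ≠ 0 := by
    rintro rfl
    rw [zero_mul] at hgq
    exact hres0 hgq
  have hq0 : q ≠ 0 := by
    rintro rfl
    rw [mul_zero] at hgq
    exact hres0 hgq
  have hsum : g.natDegree + q.natDegree = d := by
    rw [← Polynomial.natDegree_mul hg0 hq0, ← hgq, hnd]
  -- no linear factors
  have hlin : ∀ p : Polynomial ℤ, p ∣ res u v F → p.natDegree ≠ 1 := by
    intro p hp hp1
    apply hbad
    have hc1 : p.coeff 1 ≠ 0 := by
      have hp0 : p ≠ 0 := by
        rintro rfl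
        simp at hp1
      have := Polynomial.leadingCoeff_ne_zero.2 hp0
      unfold Polynomial.leadingCoeff at this
      rwa [hp1] at this
    refine lineBad_of hF hL hind h (-(p.coeff 0 : ℚ) / p.coeff 1) 1 (by simp) ?_
    have e1 : (fun k => (((-(p.coeff 0 : ℚ) / p.coeff 1 : ℚ)) : ℂ) * (u k : ℂ) +
        ((1 : ℚ) : ℂ) * v k) = fun k => (-(p.coeff 0 : ℂ) / p.coeff 1) * (u k : ℂ) + v k := by
      funext k
      push_cast
      ring
    rw [e1, ← res_aeval]
    obtain ⟨q', hq'⟩ := hp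
    rw [hq', map_mul]
    have e2 : Polynomial.aeval (-(p.coeff 0 : ℂ) / p.coeff 1) p = 0 := by
      have hc1C : (p.coeff 1 : ℂ) ≠ 0 := by exact_mod_cast hc1
      have e3 : p = Polynomial.C (p.coeff 1) * Polynomial.X + Polynomial.C (p.coeff 0) :=
        Polynomial.eq_X_add_C_of_natDegree_le_one hp1.le
      generalize p.coeff 1 = c1 at e3 hc1C ⊢
      generalize p.coeff 0 = c0 at e3 ⊢
      rw [e3]
      simp only [map_add, map_mul, Polynomial.aeval_C, Polynomial.aeval_X]
      simp only [algebraMap_int_eq, eq_intCast]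
      field_simp
      ring
    rw [e2, zero_mul]
  have hθpos : 0 < (minpoly ℚ θ).natDegree := minpoly.natDegree_pos hθ.isIntegral
  have hg1 := hlin g ⟨q, hgq⟩
  have hq1 := hlin q ⟨g, by rw [hgq, mul_comm]⟩
  rcases le_total g.natDegree q.natDegree with hle | hle
  · refine ⟨g.natDegree, q.natDegree, by omega, hle, hsum, L, u, v, h, hind, hL, ?_, hres0, g, q,
      hgq, rfl, rfl⟩
    rw [hsum]
    exact hF
  · refine ⟨q.natDegree, g.natDegree, by omega, hle, by omega, L, u, v, h, hind, hL, ?_, hres0,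
      q, g, by rw [hgq, mul_comm], rfl, rfl⟩
    rw [show q.natDegree + g.natDegree = d by omega]
    exact hF

theorem lowDeg_finite {n d H T : ℕ} : (LowDeg (n := n) d H T).Finite :=
  (finite_box (n + 1) d H).subset (fun _ h => h.1)

theorem splAll_finite {n D e H T : ℕ} : (SplAll (n := n) D e H T).Finite :=
  (finite_box (n + 1) (D + e) H).subset (fun _ ⟨_, _, _, _, _, _, h⟩ => h.1)

/-- **Points of small degree on small lines.** -/
theorem lowDeg_upper {n : ℕ} (d : ℕ) (hd : n + 3 ≤ d) :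
    ∃ C : ℝ, ∀ H T : ℕ, 1 ≤ T → H ≤ T →
      (Nat.card (LowDeg (n := n) d H T) : ℝ) ≤
        C * (T : ℝ) ^ ((n + 1 + d).choose (n + 1) - 1) := by
  classical
  obtain ⟨C1, hC1⟩ := line_upper (n := n) 1 d (by omega) (by omega)
  have hC : ∀ D ∈ Icc 2 (d / 2), ∃ C : ℝ, 0 < C ∧ ∀ (H T : ℕ), 1 ≤ T → H ≤ T →
      (Nat.card (SplAll (n := n) D (d - D) H T) : ℝ) ≤
        C * (T : ℝ) ^ (((n + 1 + d).choose (n + 1) : ℝ) - D + 1) := by
    intro D hD
    rw [mem_Icc] at hD
    have hDd : D + (d - D) = d := by omega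
    obtain ⟨C, hC, hb⟩ := count_lines (n := n) D (d - D) (by omega) (by
      rw [hDd]
      calc 2 * (n + 2) < 2 * d := by omega
        _ ≤ D * d := Nat.mul_le_mul_right _ hD.1) 1 one_pos
    refine ⟨C, hC, fun H T hT hHT => ?_⟩
    rw [Nat.card_coe_set_eq, Set.ncard_eq_toFinset_card _ splAll_finite]
    have := hb H T (splAll_finite (n := n) (D := D) (e := d - D) (H := H) (T := T)).toFinset hT hHT
      (fun F hF => by
        rw [Set.Finite.mem_toFinset] at hF
        exact hF)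
    rw [hDd] at this
    exact this
  choose! C2 hC20 hC2 using hC
  refine ⟨C1 + ∑ D ∈ Icc 2 (d / 2), C2 D, fun H T hT hHT => ?_⟩
  have hTr : (1 : ℝ) ≤ T := by exact_mod_cast hT
  set M : ℕ := (n + 1 + d).choose (n + 1) with hM
  have hM1 : 1 ≤ M := Nat.choose_pos (Nat.le_add_right _ _)
  -- the systems of one form
  have hfin1 : ({F | (fun _ : Fin 1 => F) ∈ LineBad (n := n) 1 d H T} :
      Set (MvPolynomial (Fin (n + 2)) ℤ)).Finite :=
    (finite_box (n + 1) d H).subset (fun F hF => hF.1 0)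
  have h1 : (Nat.card ({F | (fun _ : Fin 1 => F) ∈ LineBad (n := n) 1 d H T} :
      Set (MvPolynomial (Fin (n + 2)) ℤ)) : ℝ) ≤ C1 * (T : ℝ) ^ (M - 1) := by
    have h2 := hC1 H T hT hHT
    rw [one_mul] at h2
    refine le_trans ?_ h2
    have hfin : Finite (LineBad (n := n) 1 d H T) := lineBad_finite.to_subtype
    have : Nat.card ({F | (fun _ : Fin 1 => F) ∈ LineBad (n := n) 1 d H T} :
        Set (MvPolynomial (Fin (n + 2)) ℤ)) ≤ Nat.card (LineBad (n := n) 1 d H T) :=
      Nat.card_le_card_of_injective (fun F => (⟨fun _ => F.1, F.2⟩ : LineBad (n := n) 1 d H T))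
        (fun F G hFG => Subtype.ext (congrFun (congrArg Subtype.val hFG) 0))
    exact_mod_cast this
  have h2 : (LowDeg (n := n) d H T).ncard ≤
      ({F | (fun _ : Fin 1 => F) ∈ LineBad (n := n) 1 d H T} :
        Set (MvPolynomial (Fin (n + 2)) ℤ)).ncard +
      ∑ D ∈ Icc 2 (d / 2), (SplAll (n := n) D (d - D) H T).ncard := by
    have h3 : LowDeg (n := n) d H T ⊆
        {F | (fun _ : Fin 1 => F) ∈ LineBad (n := n) 1 d H T} ∪
        ⋃ D ∈ Icc 2 (d / 2), SplAll (n := n) D (d - D) H T := by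
      intro F hF
      rcases lowDeg_sub hF with h | ⟨D, e, hD, hDe, hsum, h⟩
      · exact Or.inl h
      · refine Or.inr ?_
        rw [Set.mem_iUnion₂]
        refine ⟨D, mem_Icc.2 ⟨hD, by omega⟩, ?_⟩
        have : d - D = e := by omega
        rw [this]
        exact h
    have hfinU : (⋃ D ∈ Icc 2 (d / 2), SplAll (n := n) D (d - D) H T).Finite :=
      Set.Finite.biUnion (Icc 2 (d / 2)).finite_toSet (fun D _ => splAll_finite)
    refine (Set.ncard_le_ncard h3 (hfin1.union hfinU)).trans ((Set.ncard_union_le _ _).trans ?_)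
    exact Nat.add_le_add_left (Finset.set_ncard_biUnion_le _ _) _
  rw [Nat.card_coe_set_eq] at h1 ⊢
  have h3 : ∀ D ∈ Icc 2 (d / 2), ((SplAll (n := n) D (d - D) H T).ncard : ℝ) ≤
      C2 D * (T : ℝ) ^ (M - 1) := by
    intro D hD
    have h4 := hC2 D hD H T hT hHT
    rw [Nat.card_coe_set_eq] at h4
    refine h4.trans (mul_le_mul_of_nonneg_left ?_ (hC20 D hD).le)
    rw [← Real.rpow_natCast]
    refine Real.rpow_le_rpow_of_exponent_le hTr ?_
    rw [mem_Icc] at hD
    have : (2 : ℝ) ≤ D := by exact_mod_cast hD.1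
    push_cast [Nat.cast_sub hM1]
    linarith
  calc ((LowDeg (n := n) d H T).ncard : ℝ)
      ≤ (({F | (fun _ : Fin 1 => F) ∈ LineBad (n := n) 1 d H T} :
        Set (MvPolynomial (Fin (n + 2)) ℤ)).ncard : ℝ) +
      ∑ D ∈ Icc 2 (d / 2), ((SplAll (n := n) D (d - D) H T).ncard : ℝ) := by exact_mod_cast h2
    _ ≤ C1 * (T : ℝ) ^ (M - 1) + ∑ D ∈ Icc 2 (d / 2), C2 D * (T : ℝ) ^ (M - 1) :=
        add_le_add h1 (sum_le_sum h3)
    _ = _ := by rw [← sum_mul]; ring

end Pool.Agent.Q256.LN
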