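import Mathlib
import Pool.Agent.Q256.LN.Fin

set_option autoImplicit false

namespace Pool.Agent.Q256.LN

open Finset
open Pool.Agent.Q256.CI

/-- the line through two small points is cut out by small forms. -/
theorem line_small {n : ℕ} (T B : ℕ) (hBT : 2 * B ^ 2 ≤ T) (a b : Fin (n + 2) → ℤ)
    (ha : ∀ k, |a k| ≤ B) (hb : ∀ k, |b k| ≤ B) (hab : ∃ i j, a i * b j ≠ a j * b i) :
    ∃ L : Fin n → Fin (n + 2) → ℤ, (∀ j k, |L j k| ≤ T) ∧
      LinearIndependent ℚ (fun j => (fun k => (L j k : ℚ))) ∧ InL L a ∧ InL L b := by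
  classical
  obtain ⟨k1, k2, hk⟩ := hab
  have hk12 : k1 ≠ k2 := by rintro rfl; exact hk rfl
  let S : Finset (Fin (n + 2)) := univ \ {k1, k2}
  have hS : S.card = n := by
    rw [card_sdiff_of_subset (subset_univ _), card_pair hk12]
    simp
  let e : Fin n ↪o Fin (n + 2) := S.orderEmbOfFin hS
  have he : ∀ j, e j ∈ S := fun j => S.orderEmbOfFin_mem hS j
  have he1 : ∀ j, e j ≠ k1 := by
    intro j h
    have := he j
    rw [h] at this
    simp [S] at this
  have he2 : ∀ j, e j ≠ k2 := by
    intro j h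
    have := he j
    rw [h] at this
    simp [S] at this
  let m : Fin (n + 2) → Fin (n + 2) → ℤ := fun i j => a i * b j - a j * b i
  have hm0 : m k1 k2 ≠ 0 := sub_ne_zero.2 hk
  have hmB : ∀ i j, |m i j| ≤ (T : ℤ) := by
    intro i j
    have h1 : |a i * b j| ≤ (B : ℤ) * B := by
      rw [abs_mul]
      exact mul_le_mul (ha i) (hb j) (abs_nonneg _) (by positivity)
    have h2 : |a j * b i| ≤ (B : ℤ) * B := by
      rw [abs_mul]
      exact mul_le_mul (ha j) (hb i) (abs_nonneg _) (by positivity)
    have h3 : (2 * B ^ 2 : ℤ) ≤ T := by exact_mod_cast hBT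
    calc |m i j| ≤ |a i * b j| + |a j * b i| := abs_sub _ _
      _ ≤ B * B + B * B := add_le_add h1 h2
      _ = 2 * (B : ℤ) ^ 2 := by ring
      _ ≤ T := h3
  let L : Fin n → Fin (n + 2) → ℤ := fun j k =>
    if k = e j then m k1 k2 else if k = k1 then m k2 (e j) else if k = k2 then m (e j) k1 else 0
  have hsum : ∀ (j : Fin n) (x : Fin (n + 2) → ℤ), ∑ k, L j k * x k =
      m k1 k2 * x (e j) + m k2 (e j) * x k1 + m (e j) k1 * x k2 := by
    intro j x
    have h1 : ∀ k, L j k * x k = (if k = e j then m k1 k2 * x (e j) else 0) +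
        (if k = k1 then m k2 (e j) * x k1 else 0) + (if k = k2 then m (e j) k1 * x k2 else 0) := by
      intro k
      simp only [L]
      by_cases h : k = e j
      · subst h
        simp [he1 j, he2 j]
      · by_cases h' : k = k1
        · subst h'
          simp [h, hk12]
        · by_cases h'' : k = k2
          · subst h''
            simp [h, h']
          · simp [h, h', h'']
    simp_rw [h1]
    rw [sum_add_distrib, sum_add_distrib]
    simp
  refine ⟨L, ?_, ?_, ?_, ?_⟩
  · intro j k
    simp only [L]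
    split_ifs
    · exact hmB _ _
    · exact hmB _ _
    · exact hmB _ _
    · simp
  · rw [Fintype.linearIndependent_iff]
    intro g hg i
    have h1 := congrFun hg (e i)
    simp only [Finset.sum_apply, Pi.smul_apply, smul_eq_mul, Pi.zero_apply] at h1
    have h2 : ∀ j, g j * (L j (e i) : ℚ) = if j = i then g i * (m k1 k2 : ℚ) else 0 := by
      intro j
      by_cases h : j = i
      · subst h
        simp [L]
      · have h3 : e i ≠ e j := fun h' => h (e.injective h').symm
        simp [L, h, h3, he1 i, he2 i]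
    simp_rw [h2] at h1
    rw [sum_ite_eq' univ i, if_pos (mem_univ _)] at h1
    exact (mul_eq_zero.1 h1).resolve_right (by exact_mod_cast hm0)
  · intro j
    rw [hsum]
    simp only [m]
    ring
  · intro j
    rw [hsum]
    simp only [m]
    ring

/-- a rational zero on a line is a zero of degree one. -/
theorem lineBad_lowDeg {n : ℕ} (d H T : ℕ) (hd : 2 ≤ d) :
    {F | (fun _ : Fin 1 => F) ∈ LineBad (n := n) 1 d H T} ⊆ LowDeg (n := n) d H T := by
  rintro F ⟨hF, x, hx0, ⟨L, hL, hind, horth⟩, hz⟩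
  obtain ⟨z, D, hD, hzx⟩ := clear x
  have hzL : InL L z := by
    intro j
    have h2 : ∑ k, (L j k : ℚ) * x k = 0 := horth j
    have h3 : ∑ k, (L j k : ℚ) * (z k : ℚ) = 0 := by
      simp_rw [hzx]
      have : ∀ k, (L j k : ℚ) * (D * x k) = D * ((L j k : ℚ) * x k) := fun k => by ring
      simp_rw [this]
      rw [← mul_sum, h2, mul_zero]
    exact_mod_cast h3
  obtain ⟨b, hbL, hb⟩ := exists_outside L hind z
  refine ⟨hF 0, L, hL, hind, z, b, 0, hzL, hbL, ?_, isAlgebraic_zero, ?_, ?_⟩
  · by_contra hcon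
    push Not at hcon
    have hz0 : ∃ k, z k ≠ 0 := by
      by_contra h
      push Not at h
      apply hx0
      funext k
      have := hzx k
      rw [h k] at this
      simp only [Int.cast_zero] at this
      exact (mul_eq_zero.1 this.symm).resolve_left hD
    obtain ⟨k, hk⟩ := hz0
    apply hb ((b k : ℚ) / z k)
    funext i
    simp only [Pi.smul_apply, smul_eq_mul]
    have hkq : (z k : ℚ) ≠ 0 := by exact_mod_cast hk
    field_simp
    exact_mod_cast (by have := hcon k i; linarith : b i * z k = b k * z i)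
  · rw [minpoly.zero, Polynomial.natDegree_X]
    omega
  · have e1 : (fun k => (z k : ℂ) + 0 * (b k : ℂ)) = fun k => (D : ℂ) * ((x k : ℚ) : ℂ) := by
      funext k
      have := hzx k
      rw [zero_mul, add_zero]
      exact_mod_cast congrArg (fun q : ℚ => (q : ℂ)) this
    rw [e1, aeval_scaleC F (hF 0).1 (fun k => ((x k : ℚ) : ℂ)) D]
    have h1 : MvPolynomial.aeval (fun k => ((x k : ℚ) : ℂ)) F =
        ((MvPolynomial.aeval x F : ℚ) : ℂ) := by
      rw [MvPolynomial.aeval_def, MvPolynomial.aeval_def, MvPolynomial.eval₂_eq',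
        MvPolynomial.eval₂_eq']
      push_cast
      refine sum_congr rfl (fun α _ => ?_)
      simp
    rw [h1, hz 0]
    simp

theorem lowDeg_lower {n : ℕ} (d H T : ℕ) (hd : 2 ≤ d) (hT : 1 ≤ T) :
    (2 * H + 1) ^ ((n + 1 + d).choose (n + 1) - 1) ≤ Nat.card (LowDeg (n := n) d H T) := by
  classical
  have h1 := line_lower (n := n) 1 d H T hT
  rw [one_mul] at h1
  refine h1.trans ?_
  have h2 : (LineBad (n := n) 1 d H T) ⊆
      (fun F : MvPolynomial (Fin (n + 2)) ℤ => (fun _ : Fin 1 => F)) '' LowDeg (n := n) d H T := by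
    intro G hG
    refine ⟨G 0, lineBad_lowDeg d H T hd ?_, ?_⟩
    · have : (fun _ : Fin 1 => G 0) = G := by funext i; rw [Subsingleton.elim i 0]
      rw [Set.mem_ofPred_eq, this]
      exact hG
    · funext i; rw [Subsingleton.elim i 0]
  rw [Nat.card_coe_set_eq, Nat.card_coe_set_eq]
  exact (Set.ncard_le_ncard h2 (lowDeg_finite.image _)).trans (Set.ncard_image_le lowDeg_finite)

end Pool.Agent.Q256.LN
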